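import Pool.Agent.Lib.MP_de9697_co.Pole

/-!
# Antipodal configurations and one-sided configurations
-/

open Finset

namespace MPde9697

section bound

variable {V : Type*} [NormedAddCommGroup V] [InnerProductSpace ℝ V] {n : ℕ}

theorem psd_map (hn : 3 ≤ n) (k : ℕ) (T : Finset V) (g : V → EuclideanSpace ℝ (Fin n))
    (hg : ∀ x ∈ T, ∀ y ∈ T, inner ℝ (g x) (g y) = inner ℝ x y) (hT : ∀ x ∈ T, ‖x‖ = 1) :
    0 ≤ ∑ x ∈ T, ∑ y ∈ T, geg n k (inner ℝ x y) := by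
  have h := geg_psd' hn k T (fun _ => 1) g (by
    intro x hx
    have h1 := hg x hx x hx
    rw [real_inner_self_eq_norm_sq, real_inner_self_eq_norm_sq, hT x hx] at h1
    have h2 : 0 ≤ ‖g x‖ := norm_nonneg _
    nlinarith)
  refine le_of_le_of_eq h (Finset.sum_congr rfl (fun x hx => Finset.sum_congr rfl
    (fun y hy => ?_)))
  rw [hg x hx y hy]
  ring

theorem neg_inner {x y : V} : inner ℝ x (-y) = -(inner ℝ x y : ℝ) := inner_neg_right x y

theorem row_le (f : ℝ → ℝ) (hev : f (-1) = f 1) (hf1 : 0 ≤ f 1) (T : Finset V)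
    (hT : ∀ x ∈ T, ‖x‖ = 1)
    (hfT : ∀ x ∈ T, ∀ y ∈ T, y ≠ x → y ≠ -x → f (inner ℝ x y) ≤ 0) {x : V} (hx : x ∈ T) :
    ∑ y ∈ T, f (inner ℝ x y) ≤ 2 * f 1 := by
  classical
  have h1 : ∀ y ∈ T, f (inner ℝ x y) ≤ (if y = x then f 1 else 0) + (if y = -x then f 1 else 0) := by
    intro y hy
    have hxx : inner ℝ x x = (1 : ℝ) := by rw [real_inner_self_eq_norm_sq, hT x hx]; norm_num
    by_cases h2 : y = x
    · rw [if_pos h2, h2, hxx]
      have : 0 ≤ (if x = -x then f 1 else 0) := by split_ifs <;> linarith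
      linarith
    · by_cases h3 : y = -x
      · rw [if_neg h2, if_pos h3, h3, neg_inner, hxx, hev]
        linarith
      · rw [if_neg h2, if_neg h3]
        have := hfT x hx y hy h2 h3
        linarith
  refine le_trans (Finset.sum_le_sum h1) ?_
  rw [Finset.sum_add_distrib, Finset.sum_ite_eq', Finset.sum_ite_eq']
  split_ifs <;> linarith

theorem sum_expand (K : ℕ) (φ : ℕ → ℝ) (f : ℝ → ℝ)
    (hf : ∀ t, f t = φ 0 + ∑ k ∈ Icc 1 K, φ k * geg n k t) (T : Finset V) :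
    ∑ x ∈ T, ∑ y ∈ T, f (inner ℝ x y) =
      (T.card : ℝ) ^ 2 * φ 0 + ∑ k ∈ Icc 1 K, φ k * ∑ x ∈ T, ∑ y ∈ T, geg n k (inner ℝ x y) := by
  have h1 : ∀ x ∈ T, ∀ y ∈ T, f (inner ℝ x y) =
      φ 0 + ∑ k ∈ Icc 1 K, φ k * geg n k (inner ℝ x y) := fun x _ y _ => hf _
  rw [Finset.sum_congr rfl (fun x hx => Finset.sum_congr rfl (h1 x hx))]
  simp only [Finset.sum_add_distrib, Finset.sum_const, nsmul_eq_mul]
  have h3 : ∑ x ∈ T, ∑ y ∈ T, ∑ k ∈ Icc 1 K, φ k * geg n k (inner ℝ x y) =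
      ∑ k ∈ Icc 1 K, φ k * ∑ x ∈ T, ∑ y ∈ T, geg n k (inner ℝ x y) := by
    rw [Finset.sum_congr rfl (fun x _ => Finset.sum_comm), Finset.sum_comm]
    refine Finset.sum_congr rfl (fun k _ => ?_)
    rw [Finset.mul_sum]
    exact Finset.sum_congr rfl (fun x _ => by rw [Finset.mul_sum])
  rw [h3]
  ring

/-- linear programming bound for sets in which antipodal pairs are allowed -/
theorem anti_bound (hn : 3 ≤ n) (K : ℕ) (φ : ℕ → ℝ) (hφ : ∀ k ∈ Icc 1 K, 0 ≤ φ k) (f : ℝ → ℝ)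
    (hf : ∀ t, f t = φ 0 + ∑ k ∈ Icc 1 K, φ k * geg n k t) (hev : f (-1) = f 1)
    (hf1 : 0 ≤ f 1) (T : Finset V) (g : V → EuclideanSpace ℝ (Fin n))
    (hg : ∀ x ∈ T, ∀ y ∈ T, inner ℝ (g x) (g y) = inner ℝ x y) (hT : ∀ x ∈ T, ‖x‖ = 1)
    (hfT : ∀ x ∈ T, ∀ y ∈ T, y ≠ x → y ≠ -x → f (inner ℝ x y) ≤ 0) :
    (T.card : ℝ) ^ 2 * φ 0 ≤ T.card * (2 * f 1) := by
  have h1 := Finset.sum_le_sum (fun x hx => row_le f hev hf1 T hT hfT (x := x) hx)
  rw [Finset.sum_const, nsmul_eq_mul, sum_expand K φ f hf T] at h1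
  have h2 : 0 ≤ ∑ k ∈ Icc 1 K, φ k * ∑ x ∈ T, ∑ y ∈ T, geg n k (inner ℝ x y) :=
    Finset.sum_nonneg (fun k hk => mul_nonneg (hφ k hk) (psd_map hn k T g hg hT))
  linarith

theorem anti_card (hn : 3 ≤ n) (K : ℕ) (φ : ℕ → ℝ) (hφ : ∀ k ∈ Icc 1 K, 0 ≤ φ k) (f : ℝ → ℝ)
    (hf : ∀ t, f t = φ 0 + ∑ k ∈ Icc 1 K, φ k * geg n k t) (hev : f (-1) = f 1)
    (hf1 : 0 ≤ f 1) (T : Finset V) (g : V → EuclideanSpace ℝ (Fin n))
    (hg : ∀ x ∈ T, ∀ y ∈ T, inner ℝ (g x) (g y) = inner ℝ x y) (hT : ∀ x ∈ T, ‖x‖ = 1)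
    (hfT : ∀ x ∈ T, ∀ y ∈ T, y ≠ x → y ≠ -x → f (inner ℝ x y) ≤ 0) (hφ0 : 0 < φ 0)
    (N : ℕ) (hN : 2 * f 1 ≤ N * φ 0) : T.card ≤ N := by
  rcases T.eq_empty_or_nonempty with he | hne
  · simp [he]
  have h := anti_bound hn K φ hφ f hf hev hf1 T g hg hT hfT
  have hpos : (0 : ℝ) < T.card := by exact_mod_cast hne.card_pos
  have h1 : (T.card : ℝ) * φ 0 ≤ N * φ 0 := by
    have h2 : (T.card : ℝ) * ((T.card : ℝ) * φ 0) ≤ T.card * (N * φ 0) := by
      nlinarith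
    exact le_of_mul_le_mul_left h2 hpos
  have h3 : (T.card : ℝ) ≤ N := le_of_mul_le_mul_right h1 hφ0
  exact_mod_cast h3

end bound

section hemi

variable {n : ℕ}

/-- a set of vectors orthogonal to a unit vector lives one dimension lower -/
theorem exists_map {m : ℕ} (u : EuclideanSpace ℝ (Fin (m + 1))) (hu : ‖u‖ = 1)
    (T : Finset (EuclideanSpace ℝ (Fin (m + 1)))) (hT : ∀ x ∈ T, inner ℝ x u = 0) :
    ∃ g : EuclideanSpace ℝ (Fin (m + 1)) → EuclideanSpace ℝ (Fin m),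
      ∀ x ∈ T, ∀ y ∈ T, inner ℝ (g x) (g y) = inner ℝ x y := by
  have hu0 : u ≠ 0 := by
    intro h; rw [h, norm_zero] at hu; norm_num at hu
  haveI : Fact (Module.finrank ℝ (EuclideanSpace ℝ (Fin (m + 1))) = m + 1) := ⟨by simp⟩
  let b := OrthonormalBasis.fromOrthogonalSpanSingleton (𝕜 := ℝ) m hu0
  classical
  let g : EuclideanSpace ℝ (Fin (m + 1)) → EuclideanSpace ℝ (Fin m) := fun x =>
    if h : x ∈ (ℝ ∙ u)ᗮ then b.repr ⟨x, h⟩ else 0
  have hmem : ∀ x ∈ T, x ∈ (ℝ ∙ u)ᗮ := by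
    intro x hx
    rw [Submodule.mem_orthogonal_singleton_iff_inner_left]
    exact hT x hx
  refine ⟨g, fun x hx y hy => ?_⟩
  simp only [g]
  rw [dif_pos (hmem x hx), dif_pos (hmem y hy), LinearIsometryEquiv.inner_map_map]
  rfl

variable {m : ℕ} (S : Finset (EuclideanSpace ℝ (Fin m)))

open Classical in
/-- the symmetrization -/
noncomputable def symm : Finset (EuclideanSpace ℝ (Fin m)) := S ∪ S.image (fun x => -x)

open Classical in
/-- the antipodal part -/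
noncomputable def apart : Finset (EuclideanSpace ℝ (Fin m)) := S ∩ S.image (fun x => -x)

theorem mem_symm {x : EuclideanSpace ℝ (Fin m)} : x ∈ symm S ↔ x ∈ S ∨ -x ∈ S := by
  classical
  unfold symm
  rw [Finset.mem_union, Finset.mem_image]
  constructor
  · rintro (h | ⟨y, hy, rfl⟩)
    · exact Or.inl h
    · right; rwa [neg_neg]
  · rintro (h | h)
    · exact Or.inl h
    · exact Or.inr ⟨-x, h, neg_neg x⟩

theorem mem_apart {x : EuclideanSpace ℝ (Fin m)} : x ∈ apart S ↔ x ∈ S ∧ -x ∈ S := by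
  classical
  unfold apart
  rw [Finset.mem_inter, Finset.mem_image]
  constructor
  · rintro ⟨h, ⟨y, hy, rfl⟩⟩
    exact ⟨h, by rwa [neg_neg]⟩
  · rintro ⟨h, h'⟩
    exact ⟨h, -x, h', neg_neg x⟩

theorem card_symm : (symm S).card + (apart S).card = 2 * S.card := by
  classical
  unfold symm apart
  rw [Finset.card_union_add_card_inter, Finset.card_image_of_injective _ neg_injective]
  ring

theorem apart_orth (u : EuclideanSpace ℝ (Fin m)) (hcu : ∀ c ∈ S, 0 ≤ inner ℝ c u) :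
    ∀ x ∈ apart S, inner ℝ x u = 0 := by
  intro x hx
  rw [mem_apart] at hx
  have h1 := hcu x hx.1
  have h2 := hcu (-x) hx.2
  rw [inner_neg_left] at h2
  linarith

end hemi

end MPde9697
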