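import Pool.Agent.Lib.MP_de9697_co.Pole

/-!
# The certificate in dimension 24
-/

open Finset

namespace MPde9697

theorem g24_0 (t : ℝ) : geg 24 0 t = 1 * t ^ 0 := by
  simp only [geg, Finset.sum_range_succ, Finset.sum_range_zero, gc]
  norm_num [gc]

theorem g24_1 (t : ℝ) : geg 24 1 t = 1 * t ^ 1 := by
  simp only [geg, Finset.sum_range_succ, Finset.sum_range_zero, gc]
  norm_num [gc]

theorem g24_2 (t : ℝ) : geg 24 2 t = 1 * t ^ 2 + (-1 / 24) * t ^ 0 := by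
  simp only [geg, Finset.sum_range_succ, Finset.sum_range_zero, gc]
  norm_num [gc]

theorem g24_3 (t : ℝ) : geg 24 3 t = 1 * t ^ 3 + (-3 / 26) * t ^ 1 := by
  simp only [geg, Finset.sum_range_succ, Finset.sum_range_zero, gc]
  norm_num [gc]

theorem g24_4 (t : ℝ) : geg 24 4 t = 1 * t ^ 4 + (-3 / 14) * t ^ 2 + (3 / 728) * t ^ 0 := by
  simp only [geg, Finset.sum_range_succ, Finset.sum_range_zero, gc]
  norm_num [gc]

theorem g24_5 (t : ℝ) : geg 24 5 t = 1 * t ^ 5 + (-1 / 3) * t ^ 3 + (1 / 56) * t ^ 1 := by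
  simp only [geg, Finset.sum_range_succ, Finset.sum_range_zero, gc]
  norm_num [gc]

theorem g24_6 (t : ℝ) : geg 24 6 t = 1 * t ^ 6 + (-15 / 32) * t ^ 4 + (3 / 64) * t ^ 2 + (-1 / 1792) * t ^ 0 := by
  simp only [geg, Finset.sum_range_succ, Finset.sum_range_zero, gc]
  norm_num [gc]

theorem g24_7 (t : ℝ) : geg 24 7 t = 1 * t ^ 7 + (-21 / 34) * t ^ 5 + (105 / 1088) * t ^ 3 + (-7 / 2176) * t ^ 1 := by
  simp only [geg, Finset.sum_range_succ, Finset.sum_range_zero, gc]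
  norm_num [gc]

theorem g24_8 (t : ℝ) : geg 24 8 t = 1 * t ^ 8 + (-7 / 9) * t ^ 6 + (35 / 204) * t ^ 4 + (-35 / 3264) * t ^ 2 + (7 / 78336) * t ^ 0 := by
  simp only [geg, Finset.sum_range_succ, Finset.sum_range_zero, gc]
  norm_num [gc]

theorem g24_9 (t : ℝ) : geg 24 9 t = 1 * t ^ 9 + (-18 / 19) * t ^ 7 + (21 / 76) * t ^ 5 + (-35 / 1292) * t ^ 3 + (105 / 165376) * t ^ 1 := by
  simp only [geg, Finset.sum_range_succ, Finset.sum_range_zero, gc]
  norm_num [gc]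

theorem g24_10 (t : ℝ) : geg 24 10 t = 1 * t ^ 10 + (-9 / 8) * t ^ 8 + (63 / 152) * t ^ 6 + (-35 / 608) * t ^ 4 + (105 / 41344) * t ^ 2 + (-21 / 1323008) * t ^ 0 := by
  simp only [geg, Finset.sum_range_succ, Finset.sum_range_zero, gc]
  norm_num [gc]

noncomputable def phi24 : ℕ → ℝ
  | 0 => (181981217167036809965493 / 182000000000000000000000)
  | 1 => (2185161904996496605991997 / 91000000000000000000000)
  | 2 => (433608243863817406434291 / 2125000000000000000000)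
  | 3 => (425026860324973367553123 / 340000000000000000000)
  | 4 => (34033721054557568536017 / 6800000000000000000)
  | 5 => (674685266284206981 / 40000000000000)
  | 6 => (309424606231767541 / 7600000000000)
  | 7 => (10169659573119 / 118750000)
  | 8 => (6236320563 / 50000)
  | 9 => (3712158 / 25)
  | 10 => 97560
  | _ => 1

noncomputable def beta24 : ℕ → ℝ
  | 0 => (-413517158258679 / 910000000000000)
  | 1 => (54343665770253 / 16250000000000)
  | 2 => (-161724048457971 / 21250000000000)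
  | 3 => (1734117827279 / 3187500000000)
  | 4 => (2133893839433363 / 85000000000000)
  | 5 => (-1973001348367 / 106250000000)
  | 6 => (-88860898494079 / 1781250000000)
  | 7 => (5508224721 / 148437500)
  | 8 => (4030617 / 62500)
  | 9 => (-788 / 125)
  | 10 => (-16)
  | _ => 1

theorem sum10 (F : ℕ → ℝ) : ∑ k ∈ Icc 1 10, F k =
    F 1 + F 2 + F 3 + F 4 + F 5 + F 6 + F 7 + F 8 + F 9 + F 10 := by
  rw [show Icc 1 10 = Ico 1 11 from rfl, Finset.sum_Ico_eq_sum_range]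
  simp only [Finset.sum_range_succ, Finset.sum_range_zero]
  norm_num

noncomputable def f24 (t : ℝ) : ℝ :=
  97560 * ((t + 1) * (t - 1 / 2) * ((t + 0.504) * (t + 0.253) * (t + 0.0025) * (t - 0.2485)) ^ 2)

noncomputable def D24 (t : ℝ) : ℝ :=
  t * ((t - 0.336) * (t - 0.717)) ^ 2 *
    (48.7 + 149 * t + 148.5 * t ^ 2 + 23.7 * t ^ 3 - 40 * t ^ 4 - 16 * t ^ 5)

theorem f24_eq (t : ℝ) : f24 t = phi24 0 + ∑ k ∈ Icc 1 10, phi24 k * geg 24 k t := by
  rw [sum10]
  simp only [g24_1, g24_2, g24_3, g24_4, g24_5, g24_6, g24_7, g24_8, g24_9, g24_10, phi24, f24]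
  norm_num
  ring

theorem D24_eq (t : ℝ) : D24 t = beta24 0 + ∑ k ∈ Icc 1 10, beta24 k * geg 24 k t := by
  rw [sum10]
  simp only [g24_1, g24_2, g24_3, g24_4, g24_5, g24_6, g24_7, g24_8, g24_9, g24_10, beta24, D24]
  norm_num
  ring

theorem phi24_pos : ∀ k ∈ Icc 1 10, 0 < phi24 k := by
  intro k hk
  rw [Finset.mem_Icc] at hk
  obtain ⟨h1, h2⟩ := hk
  interval_cases k <;> norm_num [phi24]

theorem f24_nonpos (t : ℝ) (h1 : -1 ≤ t) (h2 : t ≤ 1 / 2) : f24 t ≤ 0 := by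
  unfold f24
  have h3 : (t + 1) * (t - 1 / 2) ≤ 0 := mul_nonpos_of_nonneg_of_nonpos (by linarith) (by linarith)
  have h4 := mul_nonpos_of_nonpos_of_nonneg h3
    (sq_nonneg ((t + 0.504) * (t + 0.253) * (t + 0.0025) * (t - 0.2485)))
  linarith

theorem D24_nonneg (t : ℝ) (h1 : 0 ≤ t) (h2 : t ≤ 1) : 0 ≤ D24 t := by
  unfold D24
  have h4 : t ^ 4 ≤ 1 := pow_le_one₀ h1 h2
  have h5 : t ^ 5 ≤ 1 := pow_le_one₀ h1 h2
  have h6 : t ^ 4 ≤ t := by
    calc t ^ 4 = t * t ^ 3 := by ring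
      _ ≤ t * 1 := mul_le_mul_of_nonneg_left (pow_le_one₀ h1 h2) h1
      _ = t := mul_one t
  have h7 : 0 ≤ t ^ 2 := by positivity
  have h8 : 0 ≤ t ^ 3 := by positivity
  have h3 : 0 ≤ 48.7 + 149 * t + 148.5 * t ^ 2 + 23.7 * t ^ 3 - 40 * t ^ 4 - 16 * t ^ 5 := by
    linarith
  exact mul_nonneg (mul_nonneg h1 (sq_nonneg _)) h3

theorem num24 : f24 1 < 160225 *
    (phi24 0 - beta24 0 - ∑ k ∈ Icc 1 10, beta24 k ^ 2 * geg 24 k 1 / (4 * phi24 k)) := by
  rw [sum10]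
  simp only [g24_1, g24_2, g24_3, g24_4, g24_5, g24_6, g24_7, g24_8, g24_9, g24_10, beta24, phi24,
    f24]
  norm_num

/-- The one-sided kissing number in dimension 24 is at most 160224. -/
theorem card_le_24 (s : Finset (EuclideanSpace ℝ (Fin 24))) (hs : ∀ c ∈ s, ‖c‖ = 2)
    (hd : ∀ c ∈ s, ∀ d ∈ s, c ≠ d → 2 ≤ dist c d)
    (u : EuclideanSpace ℝ (Fin 24)) (hu : ‖u‖ = 1) (hcu : ∀ c ∈ s, 0 ≤ inner ℝ c u) :
    s.card ≤ 160224 := by
  rcases s.eq_empty_or_nonempty with he | hne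
  · simp [he]
  have h := pole_bound (n := 24) (by norm_num) 10 phi24 beta24 phi24_pos f24 D24 f24_eq D24_eq
    f24_nonpos D24_nonneg s hs hd u hu hcu hne
  have h2 := num24
  set w := phi24 0 - beta24 0 - ∑ k ∈ Icc 1 10, beta24 k ^ 2 * geg 24 k 1 / (4 * phi24 k) with hw
  by_contra hc
  push Not at hc
  have hc' : (160225 : ℝ) ≤ s.card := by exact_mod_cast hc
  have hf1 : 0 < f24 1 := by unfold f24; norm_num
  have hwpos : 0 < w := by
    by_contra h0
    push Not at h0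
    nlinarith
  nlinarith

end MPde9697
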