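import Pool.Agent.Lib.MP_de9697_co.Integral

/-!
# One-sided kissing configurations in dimension 5 without angles between 120 and 180 degrees
-/

open Finset

namespace MPde9697

/-- coefficients of `t^2 (t^2 - 1/4)` in dimension 5 -/
noncomputable def phi5 : ℕ → ℝ
  | 0 => 1 / 28
  | 2 => 5 / 12
  | 4 => 1
  | _ => 0

/-- coefficients of `t^2 (t^2 - 1/4)` in dimension 4 -/
noncomputable def phi4 : ℕ → ℝ
  | 0 => 1 / 16
  | 2 => 1 / 2
  | 4 => 1
  | _ => 0

noncomputable def q4 (t : ℝ) : ℝ := t ^ 2 * (t ^ 2 - 1 / 4)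

theorem phi5_nonneg (k : ℕ) : 0 ≤ phi5 k := by
  unfold phi5
  split <;> norm_num

theorem phi4_nonneg (k : ℕ) : 0 ≤ phi4 k := by
  unfold phi4
  split <;> norm_num

theorem sum4 (F : ℕ → ℝ) : ∑ k ∈ Icc 1 4, F k = F 1 + F 2 + F 3 + F 4 := by
  rw [show Icc 1 4 = Ico 1 5 from rfl, Finset.sum_Ico_eq_sum_range]
  simp only [Finset.sum_range_succ, Finset.sum_range_zero]
  norm_num

theorem q4_eq5 (t : ℝ) : q4 t = phi5 0 + ∑ k ∈ Icc 1 4, phi5 k * geg 5 k t := by
  rw [sum4]
  simp only [phi5, geg, Finset.sum_range_succ, Finset.sum_range_zero, gc, q4]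
  norm_num [gc]
  ring

theorem q4_eq4 (t : ℝ) : q4 t = phi4 0 + ∑ k ∈ Icc 1 4, phi4 k * geg 4 k t := by
  rw [sum4]
  simp only [phi4, geg, Finset.sum_range_succ, Finset.sum_range_zero, gc, q4]
  norm_num [gc]
  ring

theorem q4_nonpos {t : ℝ} (h : |t| ≤ 1 / 2) : q4 t ≤ 0 := by
  unfold q4
  have h1 : t ^ 2 ≤ 1 / 4 := by
    have := sq_le_sq' (by linarith [(abs_le.1 h).1] : -(1 / 2 : ℝ) ≤ t) (abs_le.1 h).2
    linarith
  exact mul_nonpos_of_nonneg_of_nonpos (sq_nonneg t) (by linarith)

/-- unit vectors in dimension 5 with `|⟨x, y⟩| ≤ 1/2` up to equal and opposite vectors: at most 41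
(so at most 40 by parity) -/
theorem card_anti5 (T : Finset (EuclideanSpace ℝ (Fin 5))) (hT : ∀ x ∈ T, ‖x‖ = 1)
    (hle : ∀ x ∈ T, ∀ y ∈ T, y ≠ x → y ≠ -x → |inner ℝ x y| ≤ 1 / 2) : T.card ≤ 41 := by
  have hf : ∀ x ∈ T, ∀ y ∈ T, y ≠ x → y ≠ -x → q4 (inner ℝ x y) ≤ 0 :=
    fun x hx y hy h h' => q4_nonpos (hle x hx y hy h h')
  have h42 : T.card ≤ 42 :=
    anti_card (n := 5) (by norm_num) 4 phi5 (fun k _ => phi5_nonneg k) q4 q4_eq5
      (by unfold q4; norm_num) (by unfold q4; norm_num) T id (fun x _ y _ => rfl) hT hf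
      (by simp only [phi5]; norm_num) 42 (by simp only [phi5]; unfold q4; norm_num)
  by_contra hc
  have hN : T.card = 42 := by omega
  -- equality
  have hrow := fun x hx => row_le q4 (by unfold q4; norm_num) (by unfold q4; norm_num) T hT hf
    (x := x) hx
  have hsum := Finset.sum_le_sum (fun x hx => hrow x hx)
  rw [Finset.sum_const, nsmul_eq_mul] at hsum
  have hexp := sum_expand (n := 5) 4 phi5 q4 q4_eq5 T
  have hpsd : ∀ k, 0 ≤ ∑ x ∈ T, ∑ y ∈ T, geg 5 k (inner ℝ x y) :=
    fun k => psd_map (n := 5) (by norm_num) k T id (fun x _ y _ => rfl) hT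
  rw [sum4] at hexp
  have h2 : ∑ x ∈ T, ∑ y ∈ T, geg 5 2 (inner ℝ x y) = 0 := by
    have e2 := hpsd 2
    have e4 := hpsd 4
    rw [hexp, hN] at hsum
    simp only [phi5] at hsum
    unfold q4 at hsum
    norm_num at hsum
    linarith
  have htot : ∑ x ∈ T, ∑ y ∈ T, q4 (inner ℝ x y) = ∑ x ∈ T, 2 * q4 1 := by
    refine le_antisymm (Finset.sum_le_sum (fun x hx => hrow x hx)) ?_
    rw [Finset.sum_const, nsmul_eq_mul, hexp, hN]
    have e2 := hpsd 2
    have e4 := hpsd 4
    simp only [phi5]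
    unfold q4
    norm_num
    linarith
  -- pick a point
  have hne : T.Nonempty := by rw [← Finset.card_pos, hN]; norm_num
  obtain ⟨r, hr⟩ := hne
  -- second moment
  have hl := fun ρ => level (n := 5) (by norm_num) 2 T id hT r (hT r hr) ρ
  simp only [id, h2] at hl
  have hS0 : ∑ c ∈ T, geg 5 2 (inner ℝ c r) = 0 := by
    set S := ∑ c ∈ T, geg 5 2 (inner ℝ c r) with hS
    have hg : geg 5 2 1 = 4 / 5 := by
      simp only [geg, Finset.sum_range_succ, Finset.sum_range_zero, gc]
      norm_num [gc]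
    rw [hg] at hl
    have h1 := hl S
    nlinarith
  have hG : ∀ t : ℝ, geg 5 2 t = t ^ 2 - 1 / 5 := by
    intro t
    simp only [geg, Finset.sum_range_succ, Finset.sum_range_zero, gc]
    norm_num [gc]
    ring
  have hmom : ∑ c ∈ T, 4 * (inner ℝ c r) ^ 2 = 168 / 5 := by
    have h3 : ∑ c ∈ T, ((inner ℝ c r) ^ 2 - 1 / 5) = 0 := by
      rw [← hS0]
      exact Finset.sum_congr rfl (fun c _ => (hG _).symm)
    rw [Finset.sum_sub_distrib, Finset.sum_const, nsmul_eq_mul, hN] at h3
    rw [← Finset.mul_sum]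
    push_cast at h3
    linarith
  -- integrality
  have hval : ∀ c ∈ T, ∃ k : ℤ, 4 * (inner ℝ c r) ^ 2 = (k : ℝ) := by
    intro c hc
    by_cases h1 : c = r
    · refine ⟨4, ?_⟩
      rw [h1, real_inner_self_eq_norm_sq, hT r hr]; norm_num
    · by_cases h1' : c = -r
      · refine ⟨4, ?_⟩
        rw [h1', inner_neg_left, real_inner_self_eq_norm_sq, hT r hr]; norm_num
      · -- the value of q4 is zero
        have hrow2 := (Finset.sum_eq_sum_iff_of_le (fun x hx => hrow x hx)).1 htot r hr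
        have hz : q4 (inner ℝ r c) = 0 := by
          classical
          by_contra hne0
          have hneg : q4 (inner ℝ r c) < 0 := lt_of_le_of_ne (hf r hr c hc h1 h1') hne0
          have hlt : ∑ y ∈ T, q4 (inner ℝ r y) <
              ∑ y ∈ T, ((if y = r then q4 1 else 0) + (if y = -r then q4 1 else 0)) := by
            refine Finset.sum_lt_sum ?_ ⟨c, hc, ?_⟩
            · intro y hy
              have hrr : inner ℝ r r = (1 : ℝ) := by
                rw [real_inner_self_eq_norm_sq, hT r hr]; norm_num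
              by_cases h2 : y = r
              · rw [if_pos h2, h2, hrr]
                have : 0 ≤ (if r = -r then q4 1 else 0) := by
                  unfold q4; split_ifs <;> norm_num
                linarith
              · by_cases h3 : y = -r
                · rw [if_neg h2, if_pos h3, h3, neg_inner, hrr]
                  unfold q4; norm_num
                · rw [if_neg h2, if_neg h3]
                  have := hf r hr y hy h2 h3
                  linarith
            · rw [if_neg h1, if_neg h1']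
              linarith
          rw [hrow2, Finset.sum_add_distrib, Finset.sum_ite_eq', Finset.sum_ite_eq'] at hlt
          have h5 : 0 ≤ q4 1 := by unfold q4; norm_num
          split_ifs at hlt <;> linarith
        rw [real_inner_comm] at hz
        unfold q4 at hz
        rcases mul_eq_zero.1 hz with h3 | h3
        · exact ⟨0, by rw [h3]; norm_num⟩
        · exact ⟨1, by push_cast; linarith⟩
  choose! κ hκ using hval
  rw [Finset.sum_congr rfl hκ] at hmom
  have h6 : ((5 * ∑ c ∈ T, κ c : ℤ) : ℝ) = ((168 : ℤ) : ℝ) := by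
    push_cast
    linarith
  have h7 : 5 * ∑ c ∈ T, κ c = 168 := by exact_mod_cast h6
  omega

/-- the bound for unit vectors -/
theorem card5 (S : Finset (EuclideanSpace ℝ (Fin 5))) (hS : ∀ x ∈ S, ‖x‖ = 1)
    (hle : ∀ x ∈ S, ∀ y ∈ S, y ≠ x → inner ℝ x y ≤ 1 / 2)
    (hge : ∀ x ∈ S, ∀ y ∈ S, y ≠ -x → -(1 / 2) ≤ inner ℝ x y)
    (u : EuclideanSpace ℝ (Fin 5)) (hu : ‖u‖ = 1) (hcu : ∀ c ∈ S, 0 ≤ inner ℝ c u) :
    S.card ≤ 32 := by
  have hTn : ∀ x ∈ symm S, ‖x‖ = 1 := by
    intro x hx
    rcases (mem_symm S).1 hx with h | h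
    · exact hS x h
    · have := hS _ h
      rwa [norm_neg] at this
  have hTi : ∀ x ∈ symm S, ∀ y ∈ symm S, y ≠ x → y ≠ -x → |inner ℝ x y| ≤ 1 / 2 := by
    intro x hx y hy h1 h2
    rw [abs_le]
    rcases (mem_symm S).1 hx with h | h <;> rcases (mem_symm S).1 hy with h' | h'
    · exact ⟨hge x h y h' h2, hle x h y h' h1⟩
    · have e1 := hle x h (-y) h' (fun h3 => h2 (by rw [← h3, neg_neg]))
      have e2 := hge x h (-y) h' (fun h3 => h1 (neg_injective h3))
      rw [inner_neg_right] at e1 e2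
      constructor <;> linarith
    · have e1 := hle (-x) h y h' h2
      have e2 := hge (-x) h y h' (fun h3 => h1 (by rw [h3, neg_neg]))
      rw [inner_neg_left] at e1 e2
      constructor <;> linarith
    · have e1 := hle (-x) h (-y) h' (fun h3 => h1 (neg_injective h3))
      have e2 := hge (-x) h (-y) h' (fun h3 => h2 (neg_injective h3))
      rw [inner_neg_left, inner_neg_right, neg_neg] at e1 e2
      exact ⟨e2, e1⟩
  have hT := card_anti5 (symm S) hTn hTi
  have hE : (apart S).card ≤ 24 := by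
    obtain ⟨g, hg⟩ := exists_map (m := 4) u hu (apart S) (apart_orth S u hcu)
    refine anti_card (n := 4) (by norm_num) 4 phi4 (fun k _ => phi4_nonneg k) q4 q4_eq4
      (by unfold q4; norm_num) (by unfold q4; norm_num) (apart S) g hg ?_ ?_
      (by simp only [phi4]; norm_num) 24 (by simp only [phi4]; unfold q4; norm_num)
    · intro x hx
      exact hS x ((mem_apart S).1 hx).1
    · intro x hx y hy hxy hxy'
      rw [mem_apart] at hx hy
      exact q4_nonpos (abs_le.2 ⟨hge x hx.1 y hy.1 hxy', hle x hx.1 y hy.1 hxy⟩)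
  have h := card_symm S
  omega

end MPde9697
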