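import Mathlib

/-!
# Positive definiteness of Gegenbauer polynomials on spheres, by the Fischer inner product

`F p q = ∑ α, α! p_α q_α` on real polynomials in the variables `σ`. Multiplication by `X i` and
`pderiv i` are adjoint. For a vector `x` put `ℓ x = ∑ x_i X_i`, `N = ∑ X_i ^ 2`. The polynomial
`Z k x = ∑_j c_j N^j (ℓ x)^(k - 2j)` (`|x| = 1`) is harmonic, and
`F (Z k x) (Z k y) = k! ∑_j c_j (x·y)^(k-2j)`.
-/

open MvPolynomial Finset

namespace MPde9697

set_option linter.unusedSectionVars false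

variable {σ : Type*} [Fintype σ] [DecidableEq σ]

/-- `α!` -/
noncomputable def fac (α : σ →₀ ℕ) : ℝ := ∏ i, ((α i).factorial : ℝ)

theorem fac_pos (α : σ →₀ ℕ) : 0 < fac α := by
  unfold fac
  exact Finset.prod_pos (fun i _ => by positivity)

theorem fac_single (α : σ →₀ ℕ) (i : σ) (h : α i ≠ 0) :
    fac α = (α i : ℝ) * fac (α - Finsupp.single i 1) := by
  set β : σ →₀ ℕ := α - Finsupp.single i 1 with hβ
  have e1 : fac α = ((α i).factorial : ℝ) * ∏ j ∈ univ.erase i, ((α j).factorial : ℝ) :=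
    (Finset.mul_prod_erase univ (fun j => ((α j).factorial : ℝ)) (Finset.mem_univ i)).symm
  have e2 : fac β = ((β i).factorial : ℝ) * ∏ j ∈ univ.erase i, ((β j).factorial : ℝ) :=
    (Finset.mul_prod_erase univ (fun j => ((β j).factorial : ℝ)) (Finset.mem_univ i)).symm
  have h1 : ∏ j ∈ univ.erase i, ((α j).factorial : ℝ) =
      ∏ j ∈ univ.erase i, ((β j).factorial : ℝ) := by
    refine Finset.prod_congr rfl (fun j hj => ?_)
    have hji : j ≠ i := Finset.ne_of_mem_erase hj
    have : β j = α j := by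
      rw [hβ, Finsupp.tsub_apply, Finsupp.single_apply, if_neg hji.symm, Nat.sub_zero]
    rw [this]
  have h2 : β i = α i - 1 := by
    rw [hβ, Finsupp.tsub_apply, Finsupp.single_apply, if_pos rfl]
  rw [e1, e2, h1, h2, ← mul_assoc]
  congr 1
  obtain ⟨m, hm⟩ := Nat.exists_eq_succ_of_ne_zero h
  rw [hm]
  simp [Nat.factorial_succ]

/-- the Fischer inner product -/
noncomputable def F (p q : MvPolynomial σ ℝ) : ℝ :=
  ∑ α ∈ p.support, fac α * p.coeff α * q.coeff α

theorem F_eq (p q : MvPolynomial σ ℝ) {s : Finset (σ →₀ ℕ)} (h : p.support ⊆ s) :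
    F p q = ∑ α ∈ s, fac α * p.coeff α * q.coeff α := by
  unfold F
  refine Finset.sum_subset h (fun α _ h2 => ?_)
  rw [MvPolynomial.notMem_support_iff] at h2
  rw [h2]; ring

theorem F_symm (p q : MvPolynomial σ ℝ) : F p q = F q p := by
  rw [F_eq p q (Finset.subset_union_left (s₂ := q.support)),
    F_eq q p (Finset.subset_union_right (s₁ := p.support))]
  exact Finset.sum_congr rfl (fun α _ => by ring)

theorem F_add_right (p q r : MvPolynomial σ ℝ) : F p (q + r) = F p q + F p r := by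
  unfold F
  rw [← Finset.sum_add_distrib]
  exact Finset.sum_congr rfl (fun α _ => by rw [coeff_add]; ring)

theorem F_C_mul_right (p q : MvPolynomial σ ℝ) (a : ℝ) : F p (C a * q) = a * F p q := by
  unfold F
  rw [Finset.mul_sum]
  exact Finset.sum_congr rfl (fun α _ => by rw [coeff_C_mul]; ring)

theorem F_add_left (p q r : MvPolynomial σ ℝ) : F (p + q) r = F p r + F q r := by
  rw [F_symm, F_add_right, F_symm r p, F_symm r q]

theorem F_C_mul_left (p q : MvPolynomial σ ℝ) (a : ℝ) : F (C a * p) q = a * F p q := by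
  rw [F_symm, F_C_mul_right, F_symm]

theorem F_zero_left (q : MvPolynomial σ ℝ) : F 0 q = 0 := by
  simp [F]

theorem F_zero_right (q : MvPolynomial σ ℝ) : F q 0 = 0 := by
  simp [F]

theorem F_sum_right {ι : Type*} (p : MvPolynomial σ ℝ) (s : Finset ι) (q : ι → MvPolynomial σ ℝ) :
    F p (∑ i ∈ s, q i) = ∑ i ∈ s, F p (q i) := by
  classical
  induction s using Finset.induction_on with
  | empty => simp [F_zero_right]
  | insert a s ha ih => rw [Finset.sum_insert ha, Finset.sum_insert ha, F_add_right, ih]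

theorem F_sum_left {ι : Type*} (p : MvPolynomial σ ℝ) (s : Finset ι) (q : ι → MvPolynomial σ ℝ) :
    F (∑ i ∈ s, q i) p = ∑ i ∈ s, F (q i) p := by
  rw [F_symm, F_sum_right]
  exact Finset.sum_congr rfl (fun i _ => F_symm _ _)

theorem F_nonneg (p : MvPolynomial σ ℝ) : 0 ≤ F p p := by
  unfold F
  refine Finset.sum_nonneg (fun α _ => ?_)
  have := fac_pos α
  rw [mul_assoc]
  exact mul_nonneg this.le (mul_self_nonneg _)

theorem F_monomial_left (α : σ →₀ ℕ) (a : ℝ) (q : MvPolynomial σ ℝ) :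
    F (monomial α a) q = fac α * a * q.coeff α := by
  rw [F_eq (monomial α a) q (s := {α}) (by
    intro β hβ
    by_contra hc
    rw [Finset.mem_singleton] at hc
    rw [MvPolynomial.mem_support_iff, coeff_monomial, if_neg (Ne.symm hc)] at hβ
    exact hβ rfl)]
  simp

/-- adjointness -/
theorem F_pderiv (i : σ) (p q : MvPolynomial σ ℝ) : F (pderiv i p) q = F p (X i * q) := by
  induction p using MvPolynomial.induction_on' with
  | monomial α a =>
    rw [pderiv_monomial, F_monomial_left, F_monomial_left, coeff_X_mul']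
    by_cases h : α i = 0
    · rw [if_neg (by rw [Finsupp.mem_support_iff]; simp [h])]
      simp [h]
    · rw [if_pos (by rw [Finsupp.mem_support_iff]; exact h), fac_single α i h]
      ring
  | add p r hp hr => rw [map_add, F_add_left, F_add_left, hp, hr]

/-- the linear form of a vector -/
noncomputable def ell (x : σ → ℝ) : MvPolynomial σ ℝ := ∑ i, C (x i) * X i

/-- the squared norm -/
noncomputable def nrm : MvPolynomial σ ℝ := ∑ i, X i ^ 2

/-- directional derivative -/
noncomputable def dir (y : σ → ℝ) (p : MvPolynomial σ ℝ) : MvPolynomial σ ℝ :=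
  ∑ i, C (y i) * pderiv i p

/-- Laplacian -/
noncomputable def lap (p : MvPolynomial σ ℝ) : MvPolynomial σ ℝ := ∑ i, pderiv i (pderiv i p)

theorem F_dir (y : σ → ℝ) (p q : MvPolynomial σ ℝ) : F (dir y p) q = F p (ell y * q) := by
  unfold dir ell
  rw [F_sum_left, Finset.sum_mul, F_sum_right]
  refine Finset.sum_congr rfl (fun i _ => ?_)
  rw [F_C_mul_left, F_pderiv, mul_assoc, F_C_mul_right]

theorem F_lap (p q : MvPolynomial σ ℝ) : F (lap p) q = F p (nrm * q) := by
  unfold lap nrm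
  rw [F_sum_left, Finset.sum_mul, F_sum_right]
  refine Finset.sum_congr rfl (fun i _ => ?_)
  rw [F_pderiv, F_pderiv]
  congr 1
  ring

theorem pderiv_ell (x : σ → ℝ) (i : σ) : pderiv i (ell x) = C (x i) := by
  unfold ell
  rw [map_sum, Finset.sum_eq_single i]
  · rw [pderiv_C_mul, pderiv_X_self, mul_one]
  · intro j _ hj
    rw [pderiv_C_mul, pderiv_X_of_ne hj, mul_zero]
  · intro h; exact absurd (Finset.mem_univ i) h

theorem pderiv_nrm (i : σ) : pderiv i (nrm : MvPolynomial σ ℝ) = 2 * X i := by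
  unfold nrm
  rw [map_sum, Finset.sum_eq_single i]
  · rw [pderiv_pow, pderiv_X_self]; simp
  · intro j _ hj
    rw [pderiv_pow, pderiv_X_of_ne hj, mul_zero]
  · intro h; exact absurd (Finset.mem_univ i) h

theorem pderiv_ell_pow (x : σ → ℝ) (i : σ) (m : ℕ) :
    pderiv i (ell x ^ m) = (m : MvPolynomial σ ℝ) * ell x ^ (m - 1) * C (x i) := by
  rw [pderiv_pow, pderiv_ell]

theorem dir_ell_pow (x y : σ → ℝ) (m : ℕ) :
    dir y (ell x ^ m) = C (m * ∑ i, x i * y i) * ell x ^ (m - 1) := by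
  unfold dir
  rw [map_mul, map_sum, Finset.mul_sum, Finset.sum_mul]
  refine Finset.sum_congr rfl (fun i _ => ?_)
  rw [pderiv_ell_pow, map_mul, map_natCast]
  ring

theorem F_ell_pow (x y : σ → ℝ) (m : ℕ) :
    F (ell x ^ m) (ell y ^ m) = m.factorial * (∑ i, x i * y i) ^ m := by
  induction m with
  | zero =>
    have h : (1 : MvPolynomial σ ℝ) = monomial 0 1 := rfl
    rw [pow_zero, pow_zero]
    nth_rewrite 1 [h]
    rw [F_monomial_left]
    simp [fac]
  | succ m ih =>
    rw [pow_succ' (ell y), ← F_dir, dir_ell_pow, F_C_mul_left, Nat.add_sub_cancel, ih,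
      Nat.factorial_succ]
    push_cast
    ring

theorem nat_mul_pow {R : Type*} [CommRing R] (a : R) (j : ℕ) :
    (j : R) * a ^ (j - 1) * a = j * a ^ j := by
  cases j with
  | zero => simp
  | succ j => rw [Nat.add_sub_cancel, mul_assoc, pow_succ]

theorem pderiv_mix (x : σ → ℝ) (i : σ) (j m : ℕ) :
    pderiv i (nrm ^ j * ell x ^ m) =
      (j : MvPolynomial σ ℝ) * nrm ^ (j - 1) * (2 * X i) * ell x ^ m +
        nrm ^ j * ((m : MvPolynomial σ ℝ) * ell x ^ (m - 1) * C (x i)) := by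
  rw [pderiv_mul, pderiv_ell_pow, pderiv_pow, pderiv_nrm]

theorem euler_mix (x : σ → ℝ) (j m : ℕ) :
    ∑ i, X i * pderiv i (nrm ^ j * ell x ^ m) =
      C (2 * j + m : ℝ) * (nrm ^ j * ell x ^ m) := by
  have h : ∀ i, X i * pderiv i (nrm ^ j * ell x ^ m) =
      (2 * (j : MvPolynomial σ ℝ) * nrm ^ (j - 1) * ell x ^ m) * X i ^ 2 +
        ((m : MvPolynomial σ ℝ) * ell x ^ (m - 1) * nrm ^ j) * (C (x i) * X i) := by
    intro i
    rw [pderiv_mix]
    ring
  rw [Finset.sum_congr rfl (fun i _ => h i), Finset.sum_add_distrib, ← Finset.mul_sum,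
    ← Finset.mul_sum]
  change 2 * (j : MvPolynomial σ ℝ) * nrm ^ (j - 1) * ell x ^ m * nrm +
    (m : MvPolynomial σ ℝ) * ell x ^ (m - 1) * nrm ^ j * ell x = _
  have h1 := nat_mul_pow (nrm : MvPolynomial σ ℝ) j
  have h2 := nat_mul_pow (ell x) m
  have h3 : (C (2 * j + m : ℝ) : MvPolynomial σ ℝ) = 2 * (j : MvPolynomial σ ℝ) + m := by
    rw [map_add, map_mul, map_natCast, map_natCast]
    congr 2
  rw [h3]
  linear_combination 2 * ell x ^ m * h1 + nrm ^ j * h2

theorem lap_nrm_mul (p : MvPolynomial σ ℝ) :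
    lap (nrm * p) = C (2 * Fintype.card σ : ℝ) * p + 4 * ∑ i, X i * pderiv i p + nrm * lap p := by
  unfold lap
  have h : ∀ i, pderiv i (pderiv i (nrm * p)) =
      2 * p + 4 * (X i * pderiv i p) + nrm * pderiv i (pderiv i p) := by
    intro i
    rw [pderiv_mul, pderiv_nrm, map_add, pderiv_mul, pderiv_mul, pderiv_mul, pderiv_nrm,
      pderiv_X_self]
    have h2 : pderiv i (2 : MvPolynomial σ ℝ) = 0 := by
      rw [show (2 : MvPolynomial σ ℝ) = C 2 from (map_ofNat C 2).symm, pderiv_C]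
    rw [h2]
    ring
  rw [Finset.sum_congr rfl (fun i _ => h i), Finset.sum_add_distrib, Finset.sum_add_distrib,
    ← Finset.mul_sum univ _ (4 : MvPolynomial σ ℝ), ← Finset.mul_sum univ _ nrm,
    Finset.sum_const, Finset.card_univ, nsmul_eq_mul]
  have h3 : (C (2 * Fintype.card σ : ℝ) : MvPolynomial σ ℝ) =
      2 * (Fintype.card σ : MvPolynomial σ ℝ) := by
    rw [map_mul, map_natCast]
    congr 1
  rw [h3]
  ring

theorem lap_ell_pow (x : σ → ℝ) (m : ℕ) :
    lap (ell x ^ m) = C (m * (m - 1) * ∑ i, x i * x i) * ell x ^ (m - 2) := by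
  unfold lap
  have h : ∀ i, pderiv i (pderiv i (ell x ^ m)) =
      C ((m * (m - 1) : ℝ)) * ell x ^ (m - 2) * C (x i * x i) := by
    intro i
    rw [pderiv_ell_pow, pderiv_mul, pderiv_mul, pderiv_ell_pow, pderiv_C, map_mul C (x i)]
    have h2 : pderiv i ((m : MvPolynomial σ ℝ)) = 0 := by
      have := pderiv_C (R := ℝ) (σ := σ) (a := m) (i := i)
      simpa using this
    rw [h2]
    rcases m with _ | _ | m
    · simp
    · simp
    · simp only [Nat.add_sub_cancel]
      have h3 : (C (((m + 1 + 1 : ℕ) : ℝ) * (((m + 1 + 1 : ℕ) : ℝ) - 1)) : MvPolynomial σ ℝ) =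
          ((m + 1 + 1 : ℕ) : MvPolynomial σ ℝ) * ((m + 1 : ℕ) : MvPolynomial σ ℝ) := by
        have : (((m + 1 + 1 : ℕ) : ℝ) - 1) = ((m + 1 : ℕ) : ℝ) := by push_cast; ring
        rw [this, map_mul, map_natCast, map_natCast]
      rw [h3]
      have e : m + 1 + 1 - 2 = m := by omega
      rw [e]
      ring
  rw [Finset.sum_congr rfl (fun i _ => h i), ← Finset.mul_sum, ← map_sum,
    map_mul C (↑m * (↑m - 1) : ℝ)]
  ring

/-- `Δ (N^j ℓ^m)` -/
theorem lap_mul (x : σ → ℝ) (j m : ℕ) :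
    lap (nrm ^ j * ell x ^ m) =
      C (2 * j * (2 * m + 2 * j + Fintype.card σ - 2) : ℝ) * (nrm ^ (j - 1) * ell x ^ m) +
      C (m * (m - 1) * ∑ i, x i * x i : ℝ) * (nrm ^ j * ell x ^ (m - 2)) := by
  induction j with
  | zero => simp [lap_ell_pow]
  | succ j ih =>
    rw [pow_succ' nrm j, mul_assoc, lap_nrm_mul, euler_mix, ih, Nat.add_sub_cancel]
    have h1 : nrm * (C (2 * j * (2 * m + 2 * j + Fintype.card σ - 2) : ℝ) *
        (nrm ^ (j - 1) * ell x ^ m)) =
        C (2 * j * (2 * m + 2 * j + Fintype.card σ - 2) : ℝ) * (nrm ^ j * ell x ^ m) := by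
      cases j with
      | zero => simp
      | succ j => rw [Nat.add_sub_cancel, pow_succ' nrm j]; ring
    have h2 : (4 : MvPolynomial σ ℝ) = C 4 := by
      exact (map_ofNat C 4).symm
    rw [mul_add, h1, h2]
    have h3 : C (2 * (Fintype.card σ : ℝ)) * (nrm ^ j * ell x ^ m) +
        C 4 * (C (2 * j + m : ℝ) * (nrm ^ j * ell x ^ m)) +
        C (2 * j * (2 * m + 2 * j + Fintype.card σ - 2) : ℝ) * (nrm ^ j * ell x ^ m) =
        C (2 * ((j + 1 : ℕ) : ℝ) * (2 * m + 2 * ((j + 1 : ℕ) : ℝ) + Fintype.card σ - 2)) *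
          (nrm ^ j * ell x ^ m) := by
      rw [← mul_assoc (C 4), ← map_mul, ← add_mul, ← map_add, ← add_mul, ← map_add]
      congr 2
      push_cast
      ring
    rw [← h3]
    ring

/-- pairing of `N^j ℓ_x^m` with `ℓ_y^(m+2j)` -/
theorem F_mix (x y : σ → ℝ) (m j : ℕ) :
    F (nrm ^ j * ell x ^ m) (ell y ^ (m + 2 * j)) =
      (m + 2 * j).factorial * (∑ i, y i * y i) ^ j * (∑ i, x i * y i) ^ m := by
  induction j with
  | zero => simp [F_ell_pow]
  | succ j ih =>
    rw [pow_succ' nrm j, mul_assoc, F_symm, ← F_lap, lap_ell_pow, F_C_mul_left]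
    have e : m + 2 * (j + 1) - 2 = m + 2 * j := by omega
    rw [e, F_symm, ih]
    have e2 : m + 2 * (j + 1) = (m + 2 * j) + 1 + 1 := by ring
    rw [e2, Nat.factorial_succ, Nat.factorial_succ]
    push_cast
    ring

end MPde9697
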