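import Pool.Agent.Lib.MP_de9697_co.Fischer

/-!
# Positive definiteness of Gegenbauer polynomials
-/

open MvPolynomial Finset

namespace MPde9697

set_option linter.unusedSectionVars false

variable {σ : Type*} [Fintype σ] [DecidableEq σ]

/-- coefficients of the (monic normalised) Gegenbauer polynomial of degree `k` in dimension `n` -/
noncomputable def gc (n k : ℕ) : ℕ → ℝ
  | 0 => 1
  | j + 1 => -gc n k j * (((k : ℝ) - 2 * j) * ((k : ℝ) - 2 * j - 1)) /
      (2 * ((j : ℝ) + 1) * (2 * k - 2 * j - 4 + n))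

/-- the (monic normalised) Gegenbauer polynomial -/
noncomputable def geg (n k : ℕ) (t : ℝ) : ℝ := ∑ j ∈ range (k / 2 + 1), gc n k j * t ^ (k - 2 * j)

/-- the zonal harmonic -/
noncomputable def zon (k : ℕ) (x : σ → ℝ) : MvPolynomial σ ℝ :=
  ∑ j ∈ range (k / 2 + 1), C (gc (Fintype.card σ) k j) * (nrm ^ j * ell x ^ (k - 2 * j))

theorem lap_add (p q : MvPolynomial σ ℝ) : lap (p + q) = lap p + lap q := by
  unfold lap
  simp only [map_add, Finset.sum_add_distrib]

theorem lap_C_mul (a : ℝ) (p : MvPolynomial σ ℝ) : lap (C a * p) = C a * lap p := by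
  unfold lap
  rw [Finset.mul_sum]
  exact Finset.sum_congr rfl (fun i _ => by rw [pderiv_C_mul, pderiv_C_mul])

theorem lap_zero : lap (0 : MvPolynomial σ ℝ) = 0 := by
  unfold lap; simp

theorem lap_sum {ι : Type*} (s : Finset ι) (p : ι → MvPolynomial σ ℝ) :
    lap (∑ i ∈ s, p i) = ∑ i ∈ s, lap (p i) := by
  classical
  induction s using Finset.induction_on with
  | empty => simp [lap_zero]
  | insert a s ha ih => rw [Finset.sum_insert ha, Finset.sum_insert ha, lap_add, ih]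

theorem lap_zon (hn : 3 ≤ Fintype.card σ) (k : ℕ) (x : σ → ℝ) (hx : ∑ i, x i * x i = 1) :
    lap (zon k x) = 0 := by
  unfold zon
  rw [lap_sum]
  have h1 : ∀ j ∈ range (k / 2 + 1), lap (C (gc (Fintype.card σ) k j) *
      (nrm ^ j * ell x ^ (k - 2 * j))) =
      C (gc (Fintype.card σ) k j * (2 * j * (2 * k - 2 * j + Fintype.card σ - 2))) *
        (nrm ^ (j - 1) * ell x ^ (k - 2 * j)) +
      C (gc (Fintype.card σ) k j * (((k : ℝ) - 2 * j) * ((k : ℝ) - 2 * j - 1))) *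
        (nrm ^ j * ell x ^ (k - 2 * j - 2)) := by
    intro j hj
    rw [Finset.mem_range] at hj
    have hjk : 2 * j ≤ k := by omega
    have e : ((k - 2 * j : ℕ) : ℝ) = (k : ℝ) - 2 * j := by
      rw [Nat.cast_sub hjk]; push_cast; ring
    rw [lap_C_mul, lap_mul, hx, e, mul_add, mul_one]
    rw [← mul_assoc (C _) (C _) (nrm ^ (j - 1) * _), ← mul_assoc (C _) (C _) (nrm ^ j * _),
      ← map_mul, ← map_mul]
    have e' : 2 * (j : ℝ) * (2 * ((k : ℝ) - 2 * j) + 2 * j + Fintype.card σ - 2) =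
      2 * j * (2 * k - 2 * j + Fintype.card σ - 2) := by ring
    rw [e']
  rw [Finset.sum_congr rfl h1, Finset.sum_add_distrib, Finset.sum_range_succ', 
    Finset.sum_range_succ (fun j => C (gc (Fintype.card σ) k j *
      (((k : ℝ) - 2 * j) * ((k : ℝ) - 2 * j - 1))) * (nrm ^ j * ell x ^ (k - 2 * j - 2)))]
  have h2 : C (gc (Fintype.card σ) k 0 * (2 * ((0 : ℕ) : ℝ) *
      (2 * k - 2 * ((0 : ℕ) : ℝ) + Fintype.card σ - 2))) *
        (nrm ^ (0 - 1) * ell x ^ (k - 2 * 0)) = 0 := by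
    simp
  have h3 : C (gc (Fintype.card σ) k (k / 2) * (((k : ℝ) - 2 * ((k / 2 : ℕ) : ℝ)) *
      ((k : ℝ) - 2 * ((k / 2 : ℕ) : ℝ) - 1))) *
        (nrm ^ (k / 2) * ell x ^ (k - 2 * (k / 2) - 2)) = 0 := by
    have : ((k : ℝ) - 2 * ((k / 2 : ℕ) : ℝ)) * ((k : ℝ) - 2 * ((k / 2 : ℕ) : ℝ) - 1) = 0 := by
      rcases Nat.even_or_odd' k with ⟨c, hc | hc⟩
      · have e : k / 2 = c := by omega
        rw [e, hc]; push_cast; ring
      · have e : k / 2 = c := by omega
        rw [e, hc]; push_cast; ring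
    rw [this, mul_zero, map_zero, zero_mul]
  rw [h2, h3, add_zero, add_zero, ← Finset.sum_add_distrib]
  refine Finset.sum_eq_zero (fun j hj => ?_)
  rw [Finset.mem_range] at hj
  have hjk : 2 * (j + 1) ≤ k := by omega
  have e1 : k - 2 * j - 2 = k - 2 * (j + 1) := by omega
  rw [Nat.add_sub_cancel, e1, ← add_mul, ← map_add]
  have hk : (2 * ((j : ℝ) + 1)) ≤ k := by exact_mod_cast hjk
  have hn' : (3 : ℝ) ≤ Fintype.card σ := by exact_mod_cast hn
  have e2 : gc (Fintype.card σ) k (j + 1) * (2 * ((j + 1 : ℕ) : ℝ) *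
      (2 * k - 2 * ((j + 1 : ℕ) : ℝ) + Fintype.card σ - 2)) +
      gc (Fintype.card σ) k j * (((k : ℝ) - 2 * j) * ((k : ℝ) - 2 * j - 1)) = 0 := by
    have hd1 : (0 : ℝ) < 2 * ((j : ℝ) + 1) := by positivity
    have hd2 : (0 : ℝ) < 2 * k - 2 * j - 4 + Fintype.card σ := by linarith
    rw [gc]
    push_cast
    have e3 : (2 * (k : ℝ) - 2 * ((j : ℝ) + 1) + Fintype.card σ - 2) =
      2 * k - 2 * j - 4 + Fintype.card σ := by ring
    rw [e3]
    have hd3 := hd2.ne'
    generalize (2 * (k : ℝ) - 2 * j - 4 + Fintype.card σ) = w at hd3 ⊢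
    field_simp
    ring
  rw [e2, map_zero, zero_mul]

theorem F_zon_ell (k : ℕ) (x y : σ → ℝ) (hy : ∑ i, y i * y i = 1) :
    F (zon k x) (ell y ^ k) = k.factorial * geg (Fintype.card σ) k (∑ i, x i * y i) := by
  unfold zon geg
  rw [F_sum_left, Finset.mul_sum]
  refine Finset.sum_congr rfl (fun j hj => ?_)
  rw [Finset.mem_range] at hj
  have hjk : 2 * j ≤ k := by omega
  have h := F_mix x y (k - 2 * j) j
  rw [Nat.sub_add_cancel hjk, hy, one_pow, mul_one] at h
  rw [F_C_mul_left, h]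
  ring

theorem F_zon_zon (hn : 3 ≤ Fintype.card σ) (k : ℕ) (x y : σ → ℝ) (hx : ∑ i, x i * x i = 1)
    (hy : ∑ i, y i * y i = 1) :
    F (zon k x) (zon k y) = k.factorial * geg (Fintype.card σ) k (∑ i, x i * y i) := by
  have h1 : zon k y = ell y ^ k + nrm * ∑ j ∈ range (k / 2),
      C (gc (Fintype.card σ) k (j + 1)) * (nrm ^ j * ell y ^ (k - 2 * (j + 1))) := by
    unfold zon
    rw [Finset.sum_range_succ', Finset.mul_sum, add_comm]
    congr 1
    · simp [gc]
    · refine Finset.sum_congr rfl (fun j _ => ?_)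
      rw [pow_succ' nrm j]
      ring
  rw [h1, F_add_right, ← F_lap, lap_zon hn k x hx, F_zero_left, add_zero, F_zon_ell k x y hy]

/-- Positive definiteness (Schoenberg). -/
theorem geg_psd (hn : 3 ≤ Fintype.card σ) (k : ℕ) {ι : Type*} (s : Finset ι) (a : ι → ℝ)
    (x : ι → σ → ℝ) (hx : ∀ i ∈ s, ∑ l, x i l * x i l = 1) :
    0 ≤ ∑ i ∈ s, ∑ j ∈ s, a i * a j * geg (Fintype.card σ) k (∑ l, x i l * x j l) := by
  have h := F_nonneg (∑ i ∈ s, C (a i) * zon k (x i))
  rw [F_sum_left] at h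
  have h2 : ∀ i ∈ s, F (C (a i) * zon k (x i)) (∑ j ∈ s, C (a j) * zon k (x j)) =
      k.factorial * ∑ j ∈ s, a i * a j * geg (Fintype.card σ) k (∑ l, x i l * x j l) := by
    intro i hi
    rw [F_sum_right, Finset.mul_sum]
    refine Finset.sum_congr rfl (fun j hj => ?_)
    rw [F_C_mul_left, F_C_mul_right, F_zon_zon hn k (x i) (x j) (hx i hi) (hx j hj)]
    ring
  rw [Finset.sum_congr rfl h2, ← Finset.mul_sum] at h
  have hk : (0 : ℝ) < k.factorial := by positivity
  exact nonneg_of_mul_nonneg_right h hk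

end MPde9697
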