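import Pool.Agent.Lib.MP_de9697_co.Anti

/-!
# Integral one-sided configurations in dimension 24
-/

open Finset

namespace MPde9697

/-- coefficients in dimension 24 -/
noncomputable def phiI : ℕ → ℝ
  | 0 => 1
  | 2 => 332440 / 23541
  | 6 => 5178368 / 23895
  | 8 => 1810432 / 315
  | 14 => 24696061952 / 18585
  | _ => 0

/-- coefficients in dimension 23 -/
noncomputable def phiE : ℕ → ℝ
  | 0 => 1
  | 2 => 7015 / 29
  | 4 => 351900 / 31
  | 6 => 66240
  | _ => 0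

noncomputable def fI (t : ℝ) : ℝ := phiI 0 + ∑ k ∈ Icc 1 14, phiI k * geg 24 k t

noncomputable def fE (t : ℝ) : ℝ := phiE 0 + ∑ k ∈ Icc 1 6, phiE k * geg 23 k t

theorem phiI_nonneg (k : ℕ) : 0 ≤ phiI k := by
  unfold phiI
  split <;> norm_num

theorem phiE_nonneg (k : ℕ) : 0 ≤ phiE k := by
  unfold phiE
  split <;> norm_num

theorem sum14 (F : ℕ → ℝ) : ∑ k ∈ Icc 1 14, F k =
    F 1 + F 2 + F 3 + F 4 + F 5 + F 6 + F 7 + F 8 + F 9 + F 10 + F 11 + F 12 + F 13 + F 14 := by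
  rw [show Icc 1 14 = Ico 1 15 from rfl, Finset.sum_Ico_eq_sum_range]
  simp only [Finset.sum_range_succ, Finset.sum_range_zero]
  norm_num

theorem sum6 (F : ℕ → ℝ) : ∑ k ∈ Icc 1 6, F k = F 1 + F 2 + F 3 + F 4 + F 5 + F 6 := by
  rw [show Icc 1 6 = Ico 1 7 from rfl, Finset.sum_Ico_eq_sum_range]
  simp only [Finset.sum_range_succ, Finset.sum_range_zero]
  norm_num

theorem fI_eq (t : ℝ) : fI t = 1 + 332440 / 23541 * geg 24 2 t + 5178368 / 23895 * geg 24 6 t +
    1810432 / 315 * geg 24 8 t + 24696061952 / 18585 * geg 24 14 t := by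
  unfold fI
  rw [sum14]
  simp only [phiI]
  ring

theorem fE_eq (t : ℝ) : fE t = 1 + 7015 / 29 * geg 23 2 t + 351900 / 31 * geg 23 4 t +
    66240 * geg 23 6 t := by
  unfold fE
  rw [sum6]
  simp only [phiE]
  ring

theorem fI_vals : fI 0 = 0 ∧ fI (1 / 4) = 0 ∧ fI (-1 / 4) = 0 ∧ fI (1 / 2) = 0 ∧ fI (-1 / 2) = 0 ∧
    fI (3 / 4) = 0 ∧ fI (-3 / 4) = 0 ∧ fI 1 = 98280 ∧ fI (-1) = 98280 := by
  refine ⟨?_, ?_, ?_, ?_, ?_, ?_, ?_, ?_, ?_⟩ <;>
  · rw [fI_eq]
    simp only [geg, Finset.sum_range_succ, Finset.sum_range_zero, gc]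
    norm_num [gc]

theorem fE_vals : fE 0 = 0 ∧ fE (1 / 4) = 0 ∧ fE (-1 / 4) = 0 ∧ fE (1 / 2) = 0 ∧ fE (-1 / 2) = 0 ∧
    fE 1 = 46575 ∧ fE (-1) = 46575 := by
  refine ⟨?_, ?_, ?_, ?_, ?_, ?_, ?_⟩ <;>
  · rw [fE_eq]
    simp only [geg, Finset.sum_range_succ, Finset.sum_range_zero, gc]
    norm_num [gc]

/-- unit vectors: equal, if the inner product is 1 -/
theorem eq_of_inner {m : ℕ} {x y : EuclideanSpace ℝ (Fin m)} (hx : ‖x‖ = 1) (hy : ‖y‖ = 1)
    (h : inner ℝ x y = 1) : y = x :=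
  ((inner_eq_one_iff_of_norm_eq_one (𝕜 := ℝ) hx hy).1 h).symm

theorem eq_neg_of_inner {m : ℕ} {x y : EuclideanSpace ℝ (Fin m)} (hx : ‖x‖ = 1) (hy : ‖y‖ = 1)
    (h : inner ℝ x y = -1) : y = -x := by
  have h1 : inner ℝ (-x) y = (1 : ℝ) := by rw [inner_neg_left, h]; norm_num
  exact eq_of_inner (by rw [norm_neg, hx]) hy h1

/-- the bound for unit vectors with inner products in (1/4)ℤ -/
theorem card_integral (S : Finset (EuclideanSpace ℝ (Fin 24))) (hS : ∀ x ∈ S, ‖x‖ = 1)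
    (hle : ∀ x ∈ S, ∀ y ∈ S, y ≠ x → inner ℝ x y ≤ 1 / 2)
    (hint : ∀ x ∈ S, ∀ y ∈ S, ∃ k : ℤ, inner ℝ x y = (k : ℝ) / 4)
    (u : EuclideanSpace ℝ (Fin 24)) (hu : ‖u‖ = 1) (hcu : ∀ c ∈ S, 0 ≤ inner ℝ c u) :
    S.card ≤ 144855 := by
  -- the symmetrization
  have hTn : ∀ x ∈ symm S, ‖x‖ = 1 := by
    intro x hx
    rcases (mem_symm S).1 hx with h | h
    · exact hS x h
    · have := hS _ h
      rwa [norm_neg] at this
  have hTi : ∀ x ∈ symm S, ∀ y ∈ symm S, ∃ k : ℤ, inner ℝ x y = (k : ℝ) / 4 := by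
    intro x hx y hy
    rcases (mem_symm S).1 hx with h | h <;> rcases (mem_symm S).1 hy with h' | h'
    · exact hint x h y h'
    · obtain ⟨k, hk⟩ := hint x h (-y) h'
      refine ⟨-k, ?_⟩
      rw [inner_neg_right] at hk
      push_cast
      linarith
    · obtain ⟨k, hk⟩ := hint (-x) h y h'
      refine ⟨-k, ?_⟩
      rw [inner_neg_left] at hk
      push_cast
      linarith
    · obtain ⟨k, hk⟩ := hint (-x) h (-y) h'
      refine ⟨k, ?_⟩
      rw [inner_neg_left, inner_neg_right, neg_neg] at hk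
      exact hk
  have hT : (symm S).card ≤ 196560 := by
    refine anti_card (n := 24) (by norm_num) 14 phiI (fun k _ => phiI_nonneg k) fI (fun t => rfl)
      ?_ ?_ (symm S) id (fun x _ y _ => rfl) hTn ?_ (by simp only [phiI]; norm_num) 196560 ?_
    · obtain ⟨_, _, _, _, _, _, _, h1, h2⟩ := fI_vals
      rw [h1, h2]
    · obtain ⟨_, _, _, _, _, _, _, h1, h2⟩ := fI_vals
      rw [h1]; norm_num
    · intro x hx y hy hxy hxy'
      obtain ⟨k, hk⟩ := hTi x hx y hy
      have hb := abs_real_inner_le_norm x y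
      rw [hTn x hx, hTn y hy, one_mul, hk, abs_le] at hb
      have hk1 : (-4 : ℝ) ≤ k := by linarith [hb.1]
      have hk2 : (k : ℝ) ≤ 4 := by linarith [hb.2]
      have hk3 : -4 ≤ k := by exact_mod_cast hk1
      have hk4 : k ≤ 4 := by exact_mod_cast hk2
      have hne1 : k ≠ 4 := by
        rintro rfl
        exact hxy (eq_of_inner (hTn x hx) (hTn y hy) (by rw [hk]; norm_num))
      have hne2 : k ≠ -4 := by
        rintro rfl
        exact hxy' (eq_neg_of_inner (hTn x hx) (hTn y hy) (by rw [hk]; norm_num))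
      obtain ⟨v0, v1, v1', v2, v2', v3, v3', _, _⟩ := fI_vals
      rw [hk]
      have hcase : k = -3 ∨ k = -2 ∨ k = -1 ∨ k = 0 ∨ k = 1 ∨ k = 2 ∨ k = 3 := by omega
      rcases hcase with rfl | rfl | rfl | rfl | rfl | rfl | rfl <;> norm_num
      · norm_num at v3'; rw [v3']
      · norm_num at v2'; rw [v2']
      · norm_num at v1'; rw [v1']
      · rw [v0]
      · norm_num at v1; rw [v1]
      · norm_num at v2; rw [v2]
      · norm_num at v3; rw [v3]
    · obtain ⟨_, _, _, _, _, _, _, h1, h2⟩ := fI_vals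
      rw [h1]
      simp only [phiI]
      norm_num
  have hE : (apart S).card ≤ 93150 := by
    obtain ⟨g, hg⟩ := exists_map (m := 23) u hu (apart S) (apart_orth S u hcu)
    refine anti_card (n := 23) (by norm_num) 6 phiE (fun k _ => phiE_nonneg k) fE (fun t => rfl)
      ?_ ?_ (apart S) g hg ?_ ?_ (by simp only [phiE]; norm_num) 93150 ?_
    · obtain ⟨_, _, _, _, _, h1, h2⟩ := fE_vals
      rw [h1, h2]
    · obtain ⟨_, _, _, _, _, h1, h2⟩ := fE_vals
      rw [h1]; norm_num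
    · intro x hx
      exact hS x ((mem_apart S).1 hx).1
    · intro x hx y hy hxy hxy'
      rw [mem_apart] at hx hy
      obtain ⟨k, hk⟩ := hint x hx.1 y hy.1
      have h1 := hle x hx.1 y hy.1 hxy
      have h2 := hle (-x) hx.2 y hy.1 hxy'
      rw [inner_neg_left, hk] at h2
      rw [hk] at h1
      have hk1 : (-2 : ℝ) ≤ k := by linarith
      have hk2 : (k : ℝ) ≤ 2 := by linarith
      have hk3 : -2 ≤ k := by exact_mod_cast hk1
      have hk4 : k ≤ 2 := by exact_mod_cast hk2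
      obtain ⟨v0, v1, v1', v2, v2', _, _⟩ := fE_vals
      rw [hk]
      have hcase : k = -2 ∨ k = -1 ∨ k = 0 ∨ k = 1 ∨ k = 2 := by omega
      rcases hcase with rfl | rfl | rfl | rfl | rfl <;> norm_num
      · norm_num at v2'; rw [v2']
      · norm_num at v1'; rw [v1']
      · rw [v0]
      · norm_num at v1; rw [v1]
      · norm_num at v2; rw [v2]
    · obtain ⟨_, _, _, _, _, h1, h2⟩ := fE_vals
      rw [h1]
      simp only [phiE]
      norm_num
  have h := card_symm S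
  omega

/-- the same for points of norm 2 -/
theorem card_integral_two (S : Finset (EuclideanSpace ℝ (Fin 24))) (hS : ∀ c ∈ S, ‖c‖ = 2)
    (hd : ∀ c ∈ S, ∀ d ∈ S, c ≠ d → 2 ≤ dist c d)
    (hint : ∀ c ∈ S, ∀ d ∈ S, ∃ k : ℤ, inner ℝ c d = (k : ℝ))
    (u : EuclideanSpace ℝ (Fin 24)) (hu : ‖u‖ = 1) (hcu : ∀ c ∈ S, 0 ≤ inner ℝ c u) :
    S.card ≤ 144855 := by
  classical
  have hinj : Function.Injective (fun c : EuclideanSpace ℝ (Fin 24) => (1 / 2 : ℝ) • c) := by
    intro x y h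
    exact smul_right_injective _ (by norm_num : (1 / 2 : ℝ) ≠ 0) h
  rw [← Finset.card_image_of_injective S hinj]
  refine card_integral (S.image (fun c => (1 / 2 : ℝ) • c)) ?_ ?_ ?_ u hu ?_
  · intro x hx
    obtain ⟨c, hc, rfl⟩ := Finset.mem_image.1 hx
    rw [norm_smul, hS c hc]; norm_num
  · intro x hx y hy hxy
    obtain ⟨c, hc, rfl⟩ := Finset.mem_image.1 hx
    obtain ⟨d, hd', rfl⟩ := Finset.mem_image.1 hy
    have hcd : c ≠ d := by rintro rfl; exact hxy rfl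
    have h4 := hd c hc d hd' hcd
    rw [dist_eq_norm] at h4
    have h5 := norm_sub_sq_real c d
    rw [hS c hc, hS d hd'] at h5
    rw [real_inner_smul_left, real_inner_smul_right]
    nlinarith
  · intro x hx y hy
    obtain ⟨c, hc, rfl⟩ := Finset.mem_image.1 hx
    obtain ⟨d, hd', rfl⟩ := Finset.mem_image.1 hy
    obtain ⟨k, hk⟩ := hint c hc d hd'
    refine ⟨k, ?_⟩
    rw [real_inner_smul_left, real_inner_smul_right, hk]
    ring
  · intro x hx
    obtain ⟨c, hc, rfl⟩ := Finset.mem_image.1 hx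
    rw [real_inner_smul_left]
    have := hcu c hc
    positivity

end MPde9697
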