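import Pool.Agent.Lib.MP_de9697_co.Cert

/-!
# Kissing configurations with 196560 points: hemispheres
-/

open Finset

namespace MPde9697

noncomputable def phiL : ℕ → ℝ
  | 0 => (15 / 1490944)
  | 1 => (45 / 186368)
  | 2 => (495 / 243712)
  | 3 => (435 / 34816)
  | 4 => (6927 / 139264)
  | 5 => (1467 / 8704)
  | 6 => (17747 / 43776)
  | 7 => (261 / 304)
  | 8 => (5 / 4)
  | 9 => (3 / 2)
  | 10 => 1
  | _ => 0

noncomputable def piL : ℕ → ℝ
  | 0 => (1073 / 1456)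
  | 1 => (2011 / 1170)
  | 2 => (-225 / 238)
  | 3 => (-17254 / 2295)
  | 4 => (2577 / 68)
  | 5 => (2576 / 153)
  | 6 => (17320 / 171)
  | 7 => (-5491712 / 38475)
  | 8 => 1024
  | 9 => (413696 / 2025)
  | 10 => (-2048)
  | _ => 0

noncomputable def etaL : ℕ → ℝ
  | 0 => (1 / 139776)
  | 1 => (1 / 5824)
  | 2 => (1 / 448)
  | 3 => (1 / 48)
  | 4 => (5 / 32)
  | 5 => 1
  | 6 => 1
  | 7 => 0
  | 8 => 0
  | 9 => 0
  | 10 => 0
  | _ => 0

noncomputable def fL (t : ℝ) : ℝ :=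
  (t + 1) * (t + 1 / 2) ^ 2 * (t + 1 / 4) ^ 2 * t ^ 2 * (t - 1 / 4) ^ 2 * (t - 1 / 2)

noncomputable def pL (t : ℝ) : ℝ :=
  (t + 1) * (t + 1 / 2) ^ 2 * (t + 1 / 4) ^ 2 *
    (64 - 1234336 / 2025 * t + 5095168 / 2025 * t ^ 2 - 2124928 / 405 * t ^ 3 +
      10781696 / 2025 * t ^ 4 - 2048 * t ^ 5)

noncomputable def hL (t : ℝ) : ℝ :=
  (t + 1) * (t + 1 / 2) * (t + 1 / 4) * t * (t - 1 / 4) * (t - 1 / 2)

theorem pL_eq1 (t : ℝ) : pL t = 1 + t * (1 - t) * (t - 1 / 2) ^ 2 * (t - 1 / 4) ^ 2 *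
    (450464 / 2025 + 3199232 / 2025 * t + 1711232 / 405 * t ^ 2 + 9954304 / 2025 * t ^ 3 +
      2048 * t ^ 4) := by
  unfold pL
  ring

theorem fL_eq (t : ℝ) : fL t = phiL 0 + ∑ k ∈ Icc 1 10, phiL k * geg 24 k t := by
  rw [sum10]
  simp only [g24_1, g24_2, g24_3, g24_4, g24_5, g24_6, g24_7, g24_8, g24_9, g24_10, phiL, fL]
  norm_num
  ring

theorem pL_eq (t : ℝ) : pL t = piL 0 + ∑ k ∈ Icc 1 10, piL k * geg 24 k t := by
  rw [sum10]
  simp only [g24_1, g24_2, g24_3, g24_4, g24_5, g24_6, g24_7, g24_8, g24_9, g24_10, piL, pL]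
  norm_num
  ring

theorem hL_eq (t : ℝ) : hL t = etaL 0 + ∑ k ∈ Icc 1 10, etaL k * geg 24 k t := by
  rw [sum10]
  simp only [g24_1, g24_2, g24_3, g24_4, g24_5, g24_6, g24_7, g24_8, g24_9, g24_10, etaL, hL]
  norm_num
  ring

theorem phiL_pos : ∀ k ∈ Icc 1 10, 0 < phiL k := by
  intro k hk
  rw [Finset.mem_Icc] at hk
  obtain ⟨h1, h2⟩ := hk
  interval_cases k <;> norm_num [phiL]

theorem fL_nonpos (t : ℝ) (h1 : -1 ≤ t) (h2 : t ≤ 1 / 2) : fL t ≤ 0 := by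
  have h3 : (t + 1) * (t - 1 / 2) ≤ 0 := mul_nonpos_of_nonneg_of_nonpos (by linarith) (by linarith)
  have h4 := mul_nonpos_of_nonpos_of_nonneg h3
    (sq_nonneg ((t + 1 / 2) * (t + 1 / 4) * t * (t - 1 / 4)))
  have h5 : fL t = (t + 1) * (t - 1 / 2) * ((t + 1 / 2) * (t + 1 / 4) * t * (t - 1 / 4)) ^ 2 := by
    unfold fL; ring
  rw [h5]; exact h4

theorem fL_zero {t : ℝ} (h : fL t = 0) : t = -1 ∨ t = -1 / 2 ∨ t = -1 / 4 ∨ t = 0 ∨ t = 1 / 4 ∨
    t = 1 / 2 := by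
  unfold fL at h
  simp only [mul_eq_zero, pow_eq_zero_iff, ne_eq, OfNat.ofNat_ne_zero, not_false_eq_true] at h
  rcases h with ((((h | h) | h) | h) | h) | h
  · left; linarith
  · right; left; linarith
  · right; right; left; linarith
  · right; right; right; left; linarith
  · right; right; right; right; left; linarith
  · right; right; right; right; right; linarith

theorem pL_ge0 (t : ℝ) (h1 : -1 ≤ t) (h2 : t < 0) : 0 ≤ pL t ∧
    (pL t = 0 → t = -1 ∨ t = -1 / 2 ∨ t = -1 / 4) := by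
  have h3 : 0 < 64 - 1234336 / 2025 * t + 5095168 / 2025 * t ^ 2 - 2124928 / 405 * t ^ 3 +
      10781696 / 2025 * t ^ 4 - 2048 * t ^ 5 := by
    have e2 : 0 ≤ t ^ 2 := by positivity
    have e3 : t ^ 3 ≤ 0 := by nlinarith
    have e4 : 0 ≤ t ^ 4 := by positivity
    have e5 : t ^ 5 ≤ 0 := by nlinarith
    linarith
  constructor
  · unfold pL
    have : 0 ≤ (t + 1) := by linarith
    positivity
  · intro h
    unfold pL at h
    simp only [mul_eq_zero, pow_eq_zero_iff, ne_eq, OfNat.ofNat_ne_zero, not_false_eq_true] at h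
    rcases h with ((h | h) | h) | h
    · left; linarith
    · right; left; linarith
    · right; right; linarith
    · exact absurd h h3.ne'

theorem pL_ge1 (t : ℝ) (h1 : 0 ≤ t) (h2 : t ≤ 1) : 1 ≤ pL t ∧
    (pL t = 1 → t = 0 ∨ t = 1 / 4 ∨ t = 1 / 2 ∨ t = 1) := by
  have h3 : 0 < 450464 / 2025 + 3199232 / 2025 * t + 1711232 / 405 * t ^ 2 +
      9954304 / 2025 * t ^ 3 + 2048 * t ^ 4 := by
    positivity
  rw [pL_eq1]
  constructor
  · have : 0 ≤ (1 - t) := by linarith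
    have : 0 ≤ t * (1 - t) * (t - 1 / 2) ^ 2 * (t - 1 / 4) ^ 2 *
      (450464 / 2025 + 3199232 / 2025 * t + 1711232 / 405 * t ^ 2 + 9954304 / 2025 * t ^ 3 +
      2048 * t ^ 4) := by positivity
    linarith
  · intro h
    have h' : t * (1 - t) * (t - 1 / 2) ^ 2 * (t - 1 / 4) ^ 2 *
      (450464 / 2025 + 3199232 / 2025 * t + 1711232 / 405 * t ^ 2 + 9954304 / 2025 * t ^ 3 +
      2048 * t ^ 4) = 0 := by linarith
    rw [mul_eq_zero, mul_eq_zero, mul_eq_zero, mul_eq_zero] at h'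
    rcases h' with (((h | h) | h) | h) | h
    · left; exact h
    · right; right; right; linarith
    · have := pow_eq_zero_iff (two_ne_zero) |>.1 h
      right; right; left; linarith
    · have := pow_eq_zero_iff (two_ne_zero) |>.1 h
      right; left; linarith
    · exact absurd h h3.ne'

variable (s : Finset (EuclideanSpace ℝ (Fin 24)))

/-- half of a point -/
noncomputable def hf (c : EuclideanSpace ℝ (Fin 24)) : EuclideanSpace ℝ (Fin 24) := (1 / 2 : ℝ) • c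

theorem hf_norm {s : Finset (EuclideanSpace ℝ (Fin 24))} (hs : ∀ c ∈ s, ‖c‖ = 2) :
    ∀ c ∈ s, ‖hf c‖ = 1 := by
  intro c hc
  unfold hf
  rw [norm_smul, hs c hc]
  norm_num

theorem hf_inner {c d : EuclideanSpace ℝ (Fin 24)} (hc : ‖c‖ = 2) (hd : ‖d‖ = 2)
    (h : 2 ≤ dist c d) : inner ℝ (hf c) (hf d) ≤ 1 / 2 := by
  unfold hf
  rw [dist_eq_norm] at h
  have h5 := norm_sub_sq_real c d
  rw [hc, hd] at h5
  rw [real_inner_smul_left, real_inner_smul_right]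
  nlinarith

theorem hf_ge {x y : EuclideanSpace ℝ (Fin 24)} (hx : ‖x‖ = 1) (hy : ‖y‖ = 1) :
    -1 ≤ inner ℝ x y ∧ inner ℝ x y ≤ 1 := by
  have h := abs_real_inner_le_norm x y
  rw [hx, hy, one_mul] at h
  exact abs_le.1 h

theorem sumF {s : Finset (EuclideanSpace ℝ (Fin 24))}
    (x : EuclideanSpace ℝ (Fin 24) → EuclideanSpace ℝ (Fin 24)) (f : ℝ → ℝ) (φ : ℕ → ℝ)
    (hf : ∀ t, f t = φ 0 + ∑ k ∈ Icc 1 10, φ k * geg 24 k t) :
    ∑ k ∈ Icc 1 10, φ k * ∑ c ∈ s, ∑ d ∈ s, geg 24 k (inner ℝ (x c) (x d)) =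
      (∑ c ∈ s, ∑ d ∈ s, f (inner ℝ (x c) (x d))) - (s.card : ℝ) ^ 2 * φ 0 := by
  have h1 : ∀ c ∈ s, ∀ d ∈ s, f (inner ℝ (x c) (x d)) =
      φ 0 + ∑ k ∈ Icc 1 10, φ k * geg 24 k (inner ℝ (x c) (x d)) := fun c _ d _ => hf _
  rw [Finset.sum_congr rfl (fun c hc => Finset.sum_congr rfl (h1 c hc))]
  simp only [Finset.sum_add_distrib, Finset.sum_const, nsmul_eq_mul]
  have h3 : ∑ c ∈ s, ∑ d ∈ s, ∑ k ∈ Icc 1 10, φ k * geg 24 k (inner ℝ (x c) (x d)) =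
      ∑ k ∈ Icc 1 10, φ k * ∑ c ∈ s, ∑ d ∈ s, geg 24 k (inner ℝ (x c) (x d)) := by
    rw [Finset.sum_congr rfl (fun c _ => Finset.sum_comm), Finset.sum_comm]
    refine Finset.sum_congr rfl (fun k _ => ?_)
    rw [Finset.mul_sum]
    exact Finset.sum_congr rfl (fun c _ => by rw [Finset.mul_sum])
  rw [h3]
  ring

theorem sumD {s : Finset (EuclideanSpace ℝ (Fin 24))}
    (x : EuclideanSpace ℝ (Fin 24) → EuclideanSpace ℝ (Fin 24)) (D : ℝ → ℝ) (β : ℕ → ℝ)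
    (hD : ∀ t, D t = β 0 + ∑ k ∈ Icc 1 10, β k * geg 24 k t) (u : EuclideanSpace ℝ (Fin 24)) :
    ∑ k ∈ Icc 1 10, β k * ∑ c ∈ s, geg 24 k (inner ℝ (x c) u) =
      (∑ c ∈ s, D (inner ℝ (x c) u)) - (s.card : ℝ) * β 0 := by
  rw [Finset.sum_congr rfl (fun c _ => hD (inner ℝ (x c) u)), Finset.sum_add_distrib,
    Finset.sum_const, nsmul_eq_mul, Finset.sum_comm]
  have : ∀ k ∈ Icc 1 10, β k * ∑ c ∈ s, geg 24 k (inner ℝ (x c) u) =
      ∑ c ∈ s, β k * geg 24 k (inner ℝ (x c) u) := fun k _ => Finset.mul_sum _ _ _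
  rw [Finset.sum_congr rfl this]
  ring

theorem rowL {s : Finset (EuclideanSpace ℝ (Fin 24))} (hs : ∀ c ∈ s, ‖c‖ = 2)
    (hd : ∀ c ∈ s, ∀ d ∈ s, c ≠ d → 2 ≤ dist c d) {c : EuclideanSpace ℝ (Fin 24)} (hc : c ∈ s) :
    ∑ d ∈ s, fL (inner ℝ (hf c) (hf d)) ≤ fL 1 := by
  classical
  rw [← Finset.add_sum_erase s _ hc]
  have h2 : inner ℝ (hf c) (hf c) = (1 : ℝ) := by
    rw [real_inner_self_eq_norm_sq, hf_norm hs c hc]; norm_num
  rw [h2]
  have h3 : ∑ d ∈ s.erase c, fL (inner ℝ (hf c) (hf d)) ≤ 0 := by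
    refine Finset.sum_nonpos (fun d hd' => fL_nonpos _ ?_ ?_)
    · exact (hf_ge (hf_norm hs c hc) (hf_norm hs d (Finset.mem_of_mem_erase hd'))).1
    · have hdm := Finset.mem_of_mem_erase hd'
      exact hf_inner (hs c hc) (hs d hdm)
        (hd c hc d hdm (fun h => (Finset.ne_of_mem_erase hd') h.symm))
  linarith

/-- the level sums of a configuration with 196560 points vanish, and the sum of `fL` is maximal -/
theorem tight {s : Finset (EuclideanSpace ℝ (Fin 24))} (hs : ∀ c ∈ s, ‖c‖ = 2)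
    (hd : ∀ c ∈ s, ∀ d ∈ s, c ≠ d → 2 ≤ dist c d) (hN : s.card = 196560) :
    (∀ k ∈ Icc 1 10, ∑ c ∈ s, ∑ d ∈ s, geg 24 k (inner ℝ (hf c) (hf d)) = 0) ∧
      ∑ c ∈ s, ∑ d ∈ s, fL (inner ℝ (hf c) (hf d)) = ∑ c ∈ s, fL 1 := by
  have hE : ∀ k ∈ Icc 1 10, 0 ≤ ∑ c ∈ s, ∑ d ∈ s, geg 24 k (inner ℝ (hf c) (hf d)) := by
    intro k _
    have h := geg_psd' (n := 24) (by norm_num) k s (fun _ => 1) hf (hf_norm hs)
    simpa using h
  have h1 := sumF (s := s) hf fL phiL fL_eq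
  have h2 := Finset.sum_le_sum (fun c hc => rowL hs hd (c := c) hc)
  have h3 : ∀ k ∈ Icc 1 10, 0 ≤ phiL k * ∑ c ∈ s, ∑ d ∈ s, geg 24 k (inner ℝ (hf c) (hf d)) :=
    fun k hk => mul_nonneg (phiL_pos k hk).le (hE k hk)
  have h4 := Finset.sum_nonneg h3
  have h5 : ∑ c ∈ s, fL 1 = (s.card : ℝ) ^ 2 * phiL 0 := by
    rw [Finset.sum_const, nsmul_eq_mul, hN]
    simp only [fL, phiL]
    norm_num
  have h6 : ∑ c ∈ s, ∑ d ∈ s, fL (inner ℝ (hf c) (hf d)) = ∑ c ∈ s, fL 1 := by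
    refine le_antisymm h2 ?_
    rw [h5]; linarith
  refine ⟨fun k hk => ?_, h6⟩
  have h7 : ∑ k ∈ Icc 1 10, phiL k * ∑ c ∈ s, ∑ d ∈ s, geg 24 k (inner ℝ (hf c) (hf d)) = 0 := by
    rw [h1, h6, h5]; ring
  have h8 := (Finset.sum_eq_zero_iff_of_nonneg h3).1 h7 k hk
  rcases mul_eq_zero.1 h8 with h | h
  · exact absurd h (phiL_pos k hk).ne'
  · exact h

theorem level0 {s : Finset (EuclideanSpace ℝ (Fin 24))} (hs : ∀ c ∈ s, ‖c‖ = 2)
    (hd : ∀ c ∈ s, ∀ d ∈ s, c ≠ d → 2 ≤ dist c d) (hN : s.card = 196560)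
    (u : EuclideanSpace ℝ (Fin 24)) (hu : ‖u‖ = 1) :
    ∀ k ∈ Icc 1 10, ∑ c ∈ s, geg 24 k (inner ℝ (hf c) u) = 0 := by
  intro k hk
  have h0 := (tight hs hd hN).1 k hk
  have hl := fun ρ => level (n := 24) (by norm_num) k s hf (hf_norm hs) u hu ρ
  simp only [h0] at hl
  set S := ∑ c ∈ s, geg 24 k (inner ℝ (hf c) u) with hS
  set g := geg 24 k 1 with hg
  have hpos : 0 < |g| + 1 := by positivity
  have h1 := hl (S / (|g| + 1))
  have h2 : 2 * (S / (|g| + 1)) * S - (S / (|g| + 1)) ^ 2 * g =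
      S ^ 2 * ((2 * (|g| + 1) - g) / (|g| + 1) ^ 2) := by
    field_simp
  rw [h2] at h1
  have h3 : 0 < (2 * (|g| + 1) - g) / (|g| + 1) ^ 2 := by
    have := le_abs_self g
    have := abs_nonneg g
    apply div_pos <;> [linarith; positivity]
  by_contra hne
  have h4 : 0 < S ^ 2 := by positivity
  have := mul_pos h4 h3
  linarith

theorem sum_of_level {s : Finset (EuclideanSpace ℝ (Fin 24))} (hs : ∀ c ∈ s, ‖c‖ = 2)
    (hd : ∀ c ∈ s, ∀ d ∈ s, c ≠ d → 2 ≤ dist c d) (hN : s.card = 196560)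
    (u : EuclideanSpace ℝ (Fin 24)) (hu : ‖u‖ = 1) (D : ℝ → ℝ) (β : ℕ → ℝ)
    (hD : ∀ t, D t = β 0 + ∑ k ∈ Icc 1 10, β k * geg 24 k t) :
    ∑ c ∈ s, D (inner ℝ (hf c) u) = 196560 * β 0 := by
  have h := sumD (s := s) hf D β hD u
  rw [Finset.sum_eq_zero (fun k hk => by rw [level0 hs hd hN u hu k hk, mul_zero]), hN] at h
  push_cast at h
  linarith

theorem inner_vals {s : Finset (EuclideanSpace ℝ (Fin 24))} (hs : ∀ c ∈ s, ‖c‖ = 2)
    (hd : ∀ c ∈ s, ∀ d ∈ s, c ≠ d → 2 ≤ dist c d) (hN : s.card = 196560)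
    {c d : EuclideanSpace ℝ (Fin 24)} (hc : c ∈ s) (hd' : d ∈ s) (hcd : d ≠ c) :
    fL (inner ℝ (hf c) (hf d)) = 0 := by
  classical
  have h1 := (tight hs hd hN).2
  have h2 := (Finset.sum_eq_sum_iff_of_le (fun c hc => rowL hs hd (c := c) hc)).1 h1 c hc
  rw [← Finset.add_sum_erase s _ hc] at h2
  have h3 : inner ℝ (hf c) (hf c) = (1 : ℝ) := by
    rw [real_inner_self_eq_norm_sq, hf_norm hs c hc]; norm_num
  rw [h3] at h2
  have h4 : ∑ d ∈ s.erase c, fL (inner ℝ (hf c) (hf d)) = 0 := by linarith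
  have h5 : ∀ d ∈ s.erase c, fL (inner ℝ (hf c) (hf d)) ≤ 0 := by
    intro d hd'
    refine fL_nonpos _ ?_ ?_
    · exact (hf_ge (hf_norm hs c hc) (hf_norm hs d (Finset.mem_of_mem_erase hd'))).1
    · have hdm := Finset.mem_of_mem_erase hd'
      exact hf_inner (hs c hc) (hs d hdm)
        (hd c hc d hdm (fun h => (Finset.ne_of_mem_erase hd') h.symm))
  exact (Finset.sum_eq_zero_iff_of_nonpos h5).1 h4 d (Finset.mem_erase.2 ⟨hcd, hd'⟩)

theorem inner_hf (c u : EuclideanSpace ℝ (Fin 24)) : inner ℝ (hf c) u = 1 / 2 * inner ℝ c u := by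
  unfold hf
  rw [real_inner_smul_left]

/-- counting with `pL` -/
theorem count {s : Finset (EuclideanSpace ℝ (Fin 24))} (hs : ∀ c ∈ s, ‖c‖ = 2)
    (hd : ∀ c ∈ s, ∀ d ∈ s, c ≠ d → 2 ≤ dist c d) (hN : s.card = 196560)
    (u : EuclideanSpace ℝ (Fin 24)) (hu : ‖u‖ = 1) :
    ∑ c ∈ s, (pL (inner ℝ (hf c) u) - (if 0 ≤ inner ℝ c u then 1 else 0)) =
      144855 - ((s.filter (fun c => 0 ≤ inner ℝ c u)).card : ℝ) := by
  rw [Finset.sum_sub_distrib, sum_of_level hs hd hN u hu pL piL pL_eq, Finset.sum_ite,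
    Finset.sum_const_zero, add_zero, Finset.sum_const, nsmul_eq_mul, mul_one]
  simp only [piL]
  norm_num

theorem term_nonneg {c u : EuclideanSpace ℝ (Fin 24)} (hc : ‖c‖ = 2) (hu : ‖u‖ = 1) :
    0 ≤ pL (inner ℝ (hf c) u) - (if 0 ≤ inner ℝ c u then 1 else 0) := by
  have hn : ‖hf c‖ = 1 := by unfold hf; rw [norm_smul, hc]; norm_num
  have hb := hf_ge hn hu
  split_ifs with h
  · have h0 : 0 ≤ inner ℝ (hf c) u := by rw [inner_hf]; linarith
    linarith [(pL_ge1 _ h0 hb.2).1]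
  · have h0 : inner ℝ (hf c) u < 0 := by rw [inner_hf]; push Not at h; linarith
    linarith [(pL_ge0 _ hb.1 h0).1]

theorem card_hemi {s : Finset (EuclideanSpace ℝ (Fin 24))} (hs : ∀ c ∈ s, ‖c‖ = 2)
    (hd : ∀ c ∈ s, ∀ d ∈ s, c ≠ d → 2 ≤ dist c d) (hN : s.card = 196560)
    (u : EuclideanSpace ℝ (Fin 24)) (hu : ‖u‖ = 1) :
    (s.filter (fun c => 0 ≤ inner ℝ c u)).card ≤ 144855 := by
  have h := count hs hd hN u hu
  have h2 := Finset.sum_nonneg (fun c hc => term_nonneg (hs c hc) hu)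
  rw [h] at h2
  have : ((s.filter (fun c => 0 ≤ inner ℝ c u)).card : ℝ) ≤ (144855 : ℕ) := by
    push_cast; linarith
  exact_mod_cast this

theorem card_hemi_mem {s : Finset (EuclideanSpace ℝ (Fin 24))} (hs : ∀ c ∈ s, ‖c‖ = 2)
    (hd : ∀ c ∈ s, ∀ d ∈ s, c ≠ d → 2 ≤ dist c d) (hN : s.card = 196560)
    {e : EuclideanSpace ℝ (Fin 24)} (he : e ∈ s) :
    (s.filter (fun c => 0 ≤ inner ℝ c (hf e))).card = 144855 := by
  have hu := hf_norm hs e he
  have h := count hs hd hN (hf e) hu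
  have h2 : ∑ c ∈ s, (pL (inner ℝ (hf c) (hf e)) - (if 0 ≤ inner ℝ c (hf e) then 1 else 0)) =
      0 := by
    refine Finset.sum_eq_zero (fun c hc => ?_)
    by_cases hce : c = e
    · subst hce
      have h3 : inner ℝ (hf c) (hf c) = (1 : ℝ) := by
        rw [real_inner_self_eq_norm_sq, hu]; norm_num
      have h4 : 0 ≤ inner ℝ c (hf c) := by
        have := inner_hf c (hf c)
        rw [h3] at this
        linarith
      rw [h3, if_pos h4, pL_eq1]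
      norm_num
    · have h3 := inner_vals hs hd hN hc he (fun h => hce h.symm)
      have h5 := inner_hf c (hf e)
      rcases fL_zero h3 with h4 | h4 | h4 | h4 | h4 | h4 <;> rw [h4] at h5 ⊢
      · rw [if_neg (by linarith)]; unfold pL; norm_num
      · rw [if_neg (by linarith)]; unfold pL; norm_num
      · rw [if_neg (by linarith)]; unfold pL; norm_num
      · rw [if_pos (by linarith), pL_eq1]; norm_num
      · rw [if_pos (by linarith), pL_eq1]; norm_num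
      · rw [if_pos (by linarith), pL_eq1]; norm_num
  rw [h2] at h
  have : ((s.filter (fun c => 0 ≤ inner ℝ c (hf e))).card : ℝ) = (144855 : ℕ) := by
    push_cast; linarith
  exact_mod_cast this

theorem mem_of_card {s : Finset (EuclideanSpace ℝ (Fin 24))} (hs : ∀ c ∈ s, ‖c‖ = 2)
    (hd : ∀ c ∈ s, ∀ d ∈ s, c ≠ d → 2 ≤ dist c d) (hN : s.card = 196560)
    (u : EuclideanSpace ℝ (Fin 24)) (hu : ‖u‖ = 1)
    (h : (s.filter (fun c => 0 ≤ inner ℝ c u)).card = 144855) : ∃ e ∈ s, u = hf e := by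
  have h1 := count hs hd hN u hu
  rw [h] at h1
  have h1' : ∑ c ∈ s, (pL (inner ℝ (hf c) u) - (if 0 ≤ inner ℝ c u then 1 else 0)) = 0 := by
    rw [h1]; norm_num
  have h2 := (Finset.sum_eq_zero_iff_of_nonneg (fun c hc => term_nonneg (hs c hc) hu)).1 h1'
  have h3 := sum_of_level hs hd hN u hu hL etaL hL_eq
  have h4 : (196560 : ℝ) * etaL 0 ≠ 0 := by simp only [etaL]; norm_num
  rw [← h3] at h4
  obtain ⟨e, he, hne⟩ := Finset.exists_ne_zero_of_sum_ne_zero h4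
  refine ⟨e, he, ?_⟩
  have h5 := h2 e he
  have hb := hf_ge (hf_norm hs e he) hu
  have h6 := inner_hf e u
  have h7 : inner ℝ (hf e) u = 1 := by
    split_ifs at h5 with hpos
    · have h0 : 0 ≤ inner ℝ (hf e) u := by linarith
      rcases (pL_ge1 _ h0 hb.2).2 (by linarith) with h8 | h8 | h8 | h8
      · exact absurd (by rw [h8]; unfold hL; norm_num) hne
      · exact absurd (by rw [h8]; unfold hL; norm_num) hne
      · exact absurd (by rw [h8]; unfold hL; norm_num) hne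
      · exact h8
    · have h0 : inner ℝ (hf e) u < 0 := by push Not at hpos; linarith
      rcases (pL_ge0 _ hb.1 h0).2 (by linarith) with h8 | h8 | h8
      · exact absurd (by rw [h8]; unfold hL; norm_num) hne
      · exact absurd (by rw [h8]; unfold hL; norm_num) hne
      · exact absurd (by rw [h8]; unfold hL; norm_num) hne
  exact ((inner_eq_one_iff_of_norm_eq_one (𝕜 := ℝ) (hf_norm hs e he) hu).1 h7).symm

end MPde9697
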