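import Pool.Agent.Lib.MP_de9697_co.Dim5

/-!
# 32 points in dimension 5
-/

open Finset

namespace MPde9697

/-- half of the root system `D5` together with the roots orthogonal to the last basis vector -/
def tab5 : Fin 32 → Fin 5 → ℤ :=
  ![![1, 1, 0, 0, 0], ![1, -1, 0, 0, 0], ![-1, 1, 0, 0, 0], ![-1, -1, 0, 0, 0],
    ![1, 0, 1, 0, 0], ![1, 0, -1, 0, 0], ![-1, 0, 1, 0, 0], ![-1, 0, -1, 0, 0],
    ![1, 0, 0, 1, 0], ![1, 0, 0, -1, 0], ![-1, 0, 0, 1, 0], ![-1, 0, 0, -1, 0],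
    ![0, 1, 1, 0, 0], ![0, 1, -1, 0, 0], ![0, -1, 1, 0, 0], ![0, -1, -1, 0, 0],
    ![0, 1, 0, 1, 0], ![0, 1, 0, -1, 0], ![0, -1, 0, 1, 0], ![0, -1, 0, -1, 0],
    ![0, 0, 1, 1, 0], ![0, 0, 1, -1, 0], ![0, 0, -1, 1, 0], ![0, 0, -1, -1, 0],
    ![1, 0, 0, 0, 1], ![-1, 0, 0, 0, 1], ![0, 1, 0, 0, 1], ![0, -1, 0, 0, 1],
    ![0, 0, 1, 0, 1], ![0, 0, -1, 0, 1], ![0, 0, 0, 1, 1], ![0, 0, 0, -1, 1]]

theorem tab5_norm : ∀ i, ∑ l, tab5 i l * tab5 i l = 2 := by decide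

theorem tab5_dist : ∀ i j, i ≠ j → ∑ l, tab5 i l * tab5 j l ≤ 1 := by decide

theorem tab5_anti : ∀ i j, (∀ l, tab5 i l = -tab5 j l) ∨ -1 ≤ ∑ l, tab5 i l * tab5 j l := by decide

theorem tab5_last : ∀ i, 0 ≤ tab5 i 4 := by decide

/-- the point of norm 2 -/
noncomputable def pt5 (i : Fin 32) : EuclideanSpace ℝ (Fin 5) :=
  WithLp.toLp 2 (fun l => Real.sqrt 2 * (tab5 i l : ℝ))

theorem pt5_inner (i j : Fin 32) :
    inner ℝ (pt5 i) (pt5 j) = 2 * ((∑ l, tab5 i l * tab5 j l : ℤ) : ℝ) := by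
  rw [inner_eq]
  simp only [pt5]
  push_cast
  rw [Finset.mul_sum]
  refine Finset.sum_congr rfl (fun l _ => ?_)
  have h : Real.sqrt 2 * Real.sqrt 2 = 2 := Real.mul_self_sqrt (by norm_num)
  calc Real.sqrt 2 * (tab5 i l : ℝ) * (Real.sqrt 2 * (tab5 j l : ℝ))
      = (Real.sqrt 2 * Real.sqrt 2) * ((tab5 i l : ℝ) * (tab5 j l : ℝ)) := by ring
    _ = 2 * ((tab5 i l : ℝ) * (tab5 j l : ℝ)) := by rw [h]

theorem pt5_norm (i : Fin 32) : ‖pt5 i‖ = 2 := by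
  have h := pt5_inner i i
  rw [real_inner_self_eq_norm_sq, tab5_norm] at h
  push_cast at h
  have h2 : 0 ≤ ‖pt5 i‖ := norm_nonneg _
  nlinarith

theorem pt5_sub (i j : Fin 32) (hij : i ≠ j) : 2 ≤ dist (pt5 i) (pt5 j) := by
  rw [dist_eq_norm]
  have h := norm_sub_sq_real (pt5 i) (pt5 j)
  rw [pt5_norm, pt5_norm, pt5_inner] at h
  have h1 : ((∑ l, tab5 i l * tab5 j l : ℤ) : ℝ) ≤ 1 := by exact_mod_cast tab5_dist i j hij
  have h2 : 0 ≤ ‖pt5 i - pt5 j‖ := norm_nonneg _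
  nlinarith

theorem pt5_add (i j : Fin 32) (hij : pt5 i ≠ -pt5 j) : 2 ≤ dist (pt5 i) (-pt5 j) := by
  rw [dist_eq_norm, sub_neg_eq_add]
  have h := norm_add_sq_real (pt5 i) (pt5 j)
  rw [pt5_norm, pt5_norm, pt5_inner] at h
  rcases tab5_anti i j with h0 | h0
  · exfalso
    apply hij
    ext l
    simp only [pt5, PiLp.neg_apply]
    rw [h0 l]
    push_cast
    ring
  · have h1 : (-1 : ℝ) ≤ ((∑ l, tab5 i l * tab5 j l : ℤ) : ℝ) := by exact_mod_cast h0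
    have h2 : 0 ≤ ‖pt5 i + pt5 j‖ := norm_nonneg _
    nlinarith

theorem pt5_inj : Function.Injective pt5 := by
  intro i j h
  by_contra hne
  have h1 := pt5_sub i j hne
  rw [h, dist_self] at h1
  norm_num at h1

theorem pt5_pole (i : Fin 32) :
    0 ≤ inner ℝ (pt5 i) (EuclideanSpace.single (4 : Fin 5) (1 : ℝ)) := by
  rw [inner_eq]
  rw [Finset.sum_eq_single (4 : Fin 5)]
  · simp only [pt5, EuclideanSpace.single_apply, if_true, mul_one]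
    have h1 : (0 : ℝ) ≤ (tab5 i 4 : ℝ) := by exact_mod_cast tab5_last i
    positivity
  · intro l _ hl
    simp [EuclideanSpace.single_apply, hl]
  · intro h
    exact absurd (Finset.mem_univ _) h

end MPde9697
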