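import Pool.Agent.Lib.MP_de9697_co.Gegen

/-!
# The linear programming bound with a pole for one-sided kissing configurations
-/

open Finset

namespace MPde9697

variable {n : ℕ}

theorem inner_eq (x y : EuclideanSpace ℝ (Fin n)) : inner ℝ x y = ∑ l, x l * y l := by
  rw [PiLp.inner_apply]
  exact Finset.sum_congr rfl (fun l _ => by simp [mul_comm])

theorem geg_psd' (hn : 3 ≤ n) (k : ℕ) {ι : Type*} (s : Finset ι) (a : ι → ℝ)
    (x : ι → EuclideanSpace ℝ (Fin n)) (hx : ∀ i ∈ s, ‖x i‖ = 1) :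
    0 ≤ ∑ i ∈ s, ∑ j ∈ s, a i * a j * geg n k (inner ℝ (x i) (x j)) := by
  have h := geg_psd (σ := Fin n) (by simpa using hn) k s a (fun i l => x i l) (by
    intro i hi
    rw [← inner_eq, real_inner_self_eq_norm_sq, hx i hi, one_pow])
  simp only [Fintype.card_fin] at h
  simpa only [inner_eq] using h

/-- one level with a pole -/
theorem level (hn : 3 ≤ n) (k : ℕ) (s : Finset (EuclideanSpace ℝ (Fin n)))
    (x : EuclideanSpace ℝ (Fin n) → EuclideanSpace ℝ (Fin n)) (hx : ∀ c ∈ s, ‖x c‖ = 1)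
    (u : EuclideanSpace ℝ (Fin n)) (hu : ‖u‖ = 1) (ρ : ℝ) :
    2 * ρ * ∑ c ∈ s, geg n k (inner ℝ (x c) u) - ρ ^ 2 * geg n k 1 ≤
      ∑ c ∈ s, ∑ d ∈ s, geg n k (inner ℝ (x c) (x d)) := by
  have h := geg_psd' hn k (insertNone s) (fun o => Option.elim o (-ρ) (fun _ => 1))
    (fun o => Option.elim o u x) (by
      intro i hi
      rcases i with _ | c
      · exact hu
      · exact hx c (by simpa using hi))
  rw [Finset.sum_insertNone] at h
  have e1 : ∑ j ∈ insertNone s, (Option.elim (none : Option (EuclideanSpace ℝ (Fin n))) (-ρ)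
      (fun _ => (1 : ℝ))) * (Option.elim j (-ρ) (fun _ => (1 : ℝ))) *
      geg n k (inner ℝ (Option.elim (none : Option (EuclideanSpace ℝ (Fin n))) u x)
        (Option.elim j u x)) =
      ρ ^ 2 * geg n k 1 - ρ * ∑ c ∈ s, geg n k (inner ℝ (x c) u) := by
    rw [Finset.sum_insertNone]
    have : ∀ c ∈ s, (Option.elim (none : Option (EuclideanSpace ℝ (Fin n))) (-ρ)
      (fun _ => (1 : ℝ))) * (Option.elim (some c) (-ρ) (fun _ => (1 : ℝ))) *
      geg n k (inner ℝ (Option.elim (none : Option (EuclideanSpace ℝ (Fin n))) u x)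
        (Option.elim (some c) u x)) = -(ρ * geg n k (inner ℝ (x c) u)) := by
      intro c _
      simp only [Option.elim]
      rw [real_inner_comm]; ring
    rw [Finset.sum_congr rfl this, Finset.sum_neg_distrib, ← Finset.mul_sum]
    simp only [Option.elim]
    rw [real_inner_self_eq_norm_sq, hu]
    norm_num
    ring
  have e2 : ∀ c ∈ s, ∑ j ∈ insertNone s, (Option.elim (some c) (-ρ)
      (fun _ => (1 : ℝ))) * (Option.elim j (-ρ) (fun _ => (1 : ℝ))) *
      geg n k (inner ℝ (Option.elim (some c) u x) (Option.elim j u x)) =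
      (∑ d ∈ s, geg n k (inner ℝ (x c) (x d))) - ρ * geg n k (inner ℝ (x c) u) := by
    intro c _
    rw [Finset.sum_insertNone]
    simp only [Option.elim, one_mul]
    ring
  rw [e1, Finset.sum_congr rfl e2, Finset.sum_sub_distrib, ← Finset.mul_sum] at h
  linarith

/-- The linear programming bound with a pole. -/
theorem pole_bound (hn : 3 ≤ n) (K : ℕ) (φ β : ℕ → ℝ) (hφ : ∀ k ∈ Icc 1 K, 0 < φ k)
    (f D : ℝ → ℝ) (hf : ∀ t, f t = φ 0 + ∑ k ∈ Icc 1 K, φ k * geg n k t)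
    (hD : ∀ t, D t = β 0 + ∑ k ∈ Icc 1 K, β k * geg n k t)
    (hf0 : ∀ t, -1 ≤ t → t ≤ 1 / 2 → f t ≤ 0) (hD0 : ∀ t, 0 ≤ t → t ≤ 1 → 0 ≤ D t)
    (s : Finset (EuclideanSpace ℝ (Fin n))) (hs : ∀ c ∈ s, ‖c‖ = 2)
    (hd : ∀ c ∈ s, ∀ d ∈ s, c ≠ d → 2 ≤ dist c d)
    (u : EuclideanSpace ℝ (Fin n)) (hu : ‖u‖ = 1) (hcu : ∀ c ∈ s, 0 ≤ inner ℝ c u)
    (hne : s.Nonempty) :
    (s.card : ℝ) * (φ 0 - β 0 - ∑ k ∈ Icc 1 K, β k ^ 2 * geg n k 1 / (4 * φ k)) ≤ f 1 := by
  set N : ℝ := (s.card : ℝ) with hN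
  have hNpos : 0 < N := by rw [hN]; exact_mod_cast hne.card_pos
  let x : EuclideanSpace ℝ (Fin n) → EuclideanSpace ℝ (Fin n) := fun c => (1 / 2 : ℝ) • c
  have hx : ∀ c ∈ s, ‖x c‖ = 1 := by
    intro c hc
    simp only [x]
    rw [norm_smul, hs c hc]
    norm_num
  have hlev : ∀ k ∈ Icc 1 K, N * (β k * ∑ c ∈ s, geg n k (inner ℝ (x c) u)) -
      N ^ 2 * (β k ^ 2 * geg n k 1 / (4 * φ k)) ≤
      φ k * ∑ c ∈ s, ∑ d ∈ s, geg n k (inner ℝ (x c) (x d)) := by
    intro k hk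
    have h := level hn k s x hx u hu (N * β k / (2 * φ k))
    have hp := hφ k hk
    have h2 := mul_le_mul_of_nonneg_left h hp.le
    refine le_trans (le_of_eq ?_) h2
    field_simp
    ring
  have hsum := Finset.sum_le_sum hlev
  rw [Finset.sum_sub_distrib, ← Finset.mul_sum, ← Finset.mul_sum] at hsum
  -- right side
  have hR : ∑ k ∈ Icc 1 K, φ k * ∑ c ∈ s, ∑ d ∈ s, geg n k (inner ℝ (x c) (x d)) =
      (∑ c ∈ s, ∑ d ∈ s, f (inner ℝ (x c) (x d))) - N ^ 2 * φ 0 := by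
    have h1 : ∀ c ∈ s, ∀ d ∈ s, f (inner ℝ (x c) (x d)) =
      φ 0 + ∑ k ∈ Icc 1 K, φ k * geg n k (inner ℝ (x c) (x d)) := fun c _ d _ => hf _
    rw [Finset.sum_congr rfl (fun c hc => Finset.sum_congr rfl (h1 c hc))]
    simp only [Finset.sum_add_distrib, Finset.sum_const, nsmul_eq_mul]
    rw [← hN]
    have h3 : ∑ c ∈ s, ∑ d ∈ s, ∑ k ∈ Icc 1 K, φ k * geg n k (inner ℝ (x c) (x d)) =
      ∑ k ∈ Icc 1 K, φ k * ∑ c ∈ s, ∑ d ∈ s, geg n k (inner ℝ (x c) (x d)) := by
      rw [Finset.sum_congr rfl (fun c _ => Finset.sum_comm), Finset.sum_comm]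
      refine Finset.sum_congr rfl (fun k _ => ?_)
      rw [Finset.mul_sum]
      exact Finset.sum_congr rfl (fun c _ => by rw [Finset.mul_sum])
    rw [h3]
    ring
  have hL : ∑ k ∈ Icc 1 K, β k * ∑ c ∈ s, geg n k (inner ℝ (x c) u) =
      (∑ c ∈ s, D (inner ℝ (x c) u)) - N * β 0 := by
    rw [Finset.sum_congr rfl (fun c _ => hD (inner ℝ (x c) u)), Finset.sum_add_distrib,
      Finset.sum_const, nsmul_eq_mul, ← hN, Finset.sum_comm]
    have : ∀ k ∈ Icc 1 K, β k * ∑ c ∈ s, geg n k (inner ℝ (x c) u) =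
      ∑ c ∈ s, β k * geg n k (inner ℝ (x c) u) := fun k _ => Finset.mul_sum _ _ _
    rw [Finset.sum_congr rfl this]
    ring
  have hDn : 0 ≤ ∑ c ∈ s, D (inner ℝ (x c) u) := by
    refine Finset.sum_nonneg (fun c hc => hD0 _ ?_ ?_)
    · simp only [x]
      rw [real_inner_smul_left]
      have := hcu c hc
      positivity
    · have h := real_inner_le_norm (x c) u
      rw [hx c hc, hu, one_mul] at h
      exact h
  have hfN : ∑ c ∈ s, ∑ d ∈ s, f (inner ℝ (x c) (x d)) ≤ N * f 1 := by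
    have h1 : ∀ c ∈ s, ∑ d ∈ s, f (inner ℝ (x c) (x d)) ≤ f 1 := by
      intro c hc
      classical
      rw [← Finset.add_sum_erase s _ hc]
      have h2 : inner ℝ (x c) (x c) = (1 : ℝ) := by
        rw [real_inner_self_eq_norm_sq, hx c hc]; norm_num
      rw [h2]
      have h3 : ∑ d ∈ s.erase c, f (inner ℝ (x c) (x d)) ≤ 0 := by
        refine Finset.sum_nonpos (fun d hd' => hf0 _ ?_ ?_)
        · have h := neg_le_of_abs_le (abs_real_inner_le_norm (x c) (x d))
          rw [hx c hc, hx d (Finset.mem_of_mem_erase hd'), one_mul] at h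
          exact h
        · have hdm := Finset.mem_of_mem_erase hd'
          have hne' : c ≠ d := fun h => (Finset.ne_of_mem_erase hd') h.symm
          have h4 := hd c hc d hdm hne'
          rw [dist_eq_norm] at h4
          have h5 := norm_sub_sq_real c d
          rw [hs c hc, hs d hdm] at h5
          simp only [x]
          rw [real_inner_smul_left, real_inner_smul_right]
          nlinarith
      linarith
    have h4 := Finset.sum_le_sum h1
    rw [Finset.sum_const, nsmul_eq_mul, ← hN] at h4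
    exact h4
  rw [hR, hL] at hsum
  have hfin : N * (N * (φ 0 - β 0 - ∑ k ∈ Icc 1 K, β k ^ 2 * geg n k 1 / (4 * φ k))) ≤
      N * f 1 := by
    nlinarith [mul_nonneg hNpos.le hDn]
  exact le_of_mul_le_mul_left hfin hNpos

end MPde9697
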